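import Mathlib

/-! Cells: a set of integers with positive density in all short intervals is hit by `exp (β b)` on
a positive proportion of the cells of each not too short interval of parameters `β`. -/

set_option autoImplicit false

open Filter Topology MeasureTheory Finset

namespace Pool.Agent.H27.LD

/-- the parameters `β` for which `exp (β b)` lies in `[m, m + 1]` for some `m ∈ S` -/
def Ev (S : Set ℕ) (b : ℝ) : Set ℝ :=
  {β : ℝ | ∃ m ∈ S, (m : ℝ) ≤ Real.exp (β * b) ∧ Real.exp (β * b) ≤ m + 1}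

lemma Ev_meas (S : Set ℕ) (b : ℝ) : MeasurableSet (Ev S b) := by
  have h : Ev S b = ⋃ m ∈ S, {β : ℝ | (m : ℝ) ≤ Real.exp (β * b)} ∩
      {β : ℝ | Real.exp (β * b) ≤ m + 1} := by
    ext β
    simp only [Ev, Set.mem_ofPred_eq, Set.mem_iUnion, Set.mem_inter_iff, exists_prop]
  rw [h]
  refine MeasurableSet.biUnion (Set.to_countable S) fun m _ => ?_
  exact (measurableSet_le measurable_const (by fun_prop)).inter
    (measurableSet_le (by fun_prop) measurable_const)

open Classical in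
/-- number of cells inside `Ev S b` -/
lemma cells (S : Set ℕ) (c θ : ℝ) (hc0 : 0 < c) (X₀ : ℕ)
    (hS : ∀ X Y : ℕ, X₀ ≤ X → (X : ℝ) ^ θ ≤ Y → Y ≤ X →
      c * Y ≤ (((Finset.Ioc X (X + Y)).filter (fun m => m ∈ S)).card : ℝ))
    (hθ : 0 < θ) (a b δ η : ℝ) (M : ℕ) (hb : 0 < b) (hδ : δ = M * η) (hη : 0 < η) (hM : 0 < M)
    (h1 : δ * b ≤ 1 / 2)
    (h2 : 2 * (Real.exp (a * b) + 1) ^ θ ≤ Real.exp (a * b) * (δ * b))
    (h3 : 6 ≤ Real.exp (a * b) * (δ * b))
    (h4 : 8 * (b * (Real.exp ((a + δ) * b) * η)) ≤ 1)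
    (h5 : (X₀ : ℝ) ≤ Real.exp (a * b)) :
    c / 6 * M ≤ (((Finset.range M).filter (fun i : ℕ =>
      Set.Icc (a + i * η) (a + (i + 1) * η) ⊆ Ev S b)).card : ℝ) := by
  have hMr : (0 : ℝ) < M := by exact_mod_cast hM
  have hδ0 : 0 < δ := by rw [hδ]; positivity
  set E := Real.exp (a * b) with hE
  have hE0 : 0 < E := Real.exp_pos _
  set F := Real.exp ((a + δ) * b) with hF
  have hF0 : 0 < F := Real.exp_pos _
  have hFE : F = E * Real.exp (δ * b) := by
    rw [hF, hE, ← Real.exp_add]; ring_nf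
  have hδb : 0 < δ * b := mul_pos hδ0 hb
  have hF1 : E + E * (δ * b) ≤ F := by
    rw [hFE]
    have := Real.add_one_le_exp (δ * b)
    nlinarith
  have hF2 : F ≤ 2 * E := by
    rw [hFE]
    have h6 : Real.exp (δ * b) ≤ 2 := by
      have h7 := Real.add_one_le_exp (-(δ * b))
      rw [Real.exp_neg] at h7
      have h8 : 0 < Real.exp (δ * b) := Real.exp_pos _
      have h9 : (1 : ℝ) / 2 ≤ (Real.exp (δ * b))⁻¹ := by linarith
      rw [le_inv_comm₀ (by norm_num) h8] at h9
      linarith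
    nlinarith
  have hEge : 12 ≤ E := by nlinarith
  obtain ⟨X, hX⟩ : ∃ X : ℕ, X = ⌈E⌉₊ := ⟨_, rfl⟩
  have hX1 : E ≤ X := by rw [hX]; exact Nat.le_ceil _
  have hX2 : (X : ℝ) < E + 1 := by rw [hX]; exact Nat.ceil_lt_add_one hE0.le
  obtain ⟨Z, hZ⟩ : ∃ Z : ℕ, Z = ⌊F⌋₊ := ⟨_, rfl⟩
  have hZ1 : (Z : ℝ) ≤ F := by rw [hZ]; exact Nat.floor_le hF0.le
  have hZ2 : F < Z + 1 := by rw [hZ]; exact Nat.lt_floor_add_one _
  have hXZ : X + 1 ≤ Z := by
    have : (X : ℝ) + 1 < Z + 1 := by linarith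
    have : X + 1 < Z + 1 := by exact_mod_cast this
    omega
  obtain ⟨Y, hY⟩ : ∃ Y : ℕ, Y = Z - (X + 1) := ⟨_, rfl⟩
  have hYZ : Y + (X + 1) = Z := by omega
  have hYr : (Y : ℝ) + (X + 1) = Z := by exact_mod_cast hYZ
  have hYlow : E * (δ * b) / 2 ≤ Y := by linarith
  have hYX : Y ≤ X := by
    have : (Y : ℝ) ≤ X := by linarith
    exact_mod_cast this
  have hX0' : X₀ ≤ X := by
    have : (X₀ : ℝ) ≤ X := h5.trans hX1
    exact_mod_cast this
  have hXY : (X : ℝ) ^ θ ≤ Y := by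
    have h6 : (X : ℝ) ^ θ ≤ (E + 1) ^ θ :=
      Real.rpow_le_rpow (Nat.cast_nonneg _) hX2.le hθ.le
    linarith
  have hcount := hS X Y hX0' hXY hYX
  -- the cells inside the image of `[m, m + 1]`
  set T := (Finset.Ioc X (X + Y)).filter (fun m => m ∈ S) with hT
  let A : ℕ → ℕ := fun m => ⌈(Real.log m / b - a) / η⌉₊
  let B : ℕ → ℕ := fun m => ⌊(Real.log ((m + 1 : ℕ) : ℝ) / b - a) / η⌋₊
  have hmem : ∀ m ∈ T, E ≤ m ∧ ((m + 1 : ℕ) : ℝ) ≤ F ∧ m ∈ S := by
    intro m hm
    rw [hT, Finset.mem_filter, Finset.mem_Ioc] at hm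
    obtain ⟨⟨hm1, hm2⟩, hm3⟩ := hm
    refine ⟨?_, ?_, hm3⟩
    · have : (X : ℝ) ≤ m := by exact_mod_cast hm1.le
      linarith
    · have : (m + 1 : ℕ) ≤ Z := by omega
      have : ((m + 1 : ℕ) : ℝ) ≤ Z := by exact_mod_cast this
      linarith
  have hlow : ∀ m : ℕ, E ≤ m → 0 ≤ (Real.log m / b - a) / η := by
    intro m hm
    apply div_nonneg _ hη.le
    rw [sub_nonneg, le_div_iff₀ hb]
    rw [Real.le_log_iff_exp_le (by linarith)]
    exact hm
  have hsub : T.biUnion (fun m => Finset.Ico (A m) (B m)) ⊆ (Finset.range M).filter (fun i : ℕ =>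
      Set.Icc (a + i * η) (a + (i + 1) * η) ⊆ Ev S b) := by
    intro i hi
    rw [Finset.mem_biUnion] at hi
    obtain ⟨m, hm, hi⟩ := hi
    obtain ⟨m1, m2, m3⟩ := hmem m hm
    rw [Finset.mem_Ico] at hi
    obtain ⟨hi1, hi2⟩ := hi
    have hm0 : (0 : ℝ) < m := by linarith
    have hi1' : (Real.log m / b - a) / η ≤ i := (Nat.le_ceil _).trans (by exact_mod_cast hi1)
    have hi2' : ((i : ℝ) + 1) ≤ (Real.log ((m + 1 : ℕ) : ℝ) / b - a) / η := by
      have h6 : ((i + 1 : ℕ) : ℝ) ≤ (B m : ℝ) := by exact_mod_cast hi2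
      have h7 : (B m : ℝ) ≤ (Real.log ((m + 1 : ℕ) : ℝ) / b - a) / η := by
        apply Nat.floor_le
        refine hlow (m + 1) ?_
        push_cast
        linarith
      push_cast at h6
      linarith
    rw [div_le_iff₀ hη] at hi1'
    rw [le_div_iff₀ hη] at hi2'
    rw [Finset.mem_filter, Finset.mem_range]
    constructor
    · have h8 : Real.log ((m + 1 : ℕ) : ℝ) ≤ (a + δ) * b := by
        rw [Real.log_le_iff_le_exp (by positivity)]
        exact m2
      have h9 : Real.log ((m + 1 : ℕ) : ℝ) / b ≤ a + δ := by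
        rw [div_le_iff₀ hb]; exact h8
      have h10 : ((i : ℝ) + 1) * η ≤ M * η := by
        rw [← hδ]; linarith
      have h11 : ((i : ℝ) + 1) ≤ M := le_of_mul_le_mul_right h10 hη
      have : i + 1 ≤ M := by exact_mod_cast h11
      omega
    · intro β hβ
      refine ⟨m, m3, ?_, ?_⟩
      · rw [← Real.log_le_iff_le_exp hm0]
        have : Real.log m / b ≤ β := by linarith [hβ.1]
        rwa [div_le_iff₀ hb] at this
      · have h12 : β ≤ Real.log ((m + 1 : ℕ) : ℝ) / b := by linarith [hβ.2]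
        rw [le_div_iff₀ hb, Real.le_log_iff_exp_le (by positivity)] at h12
        push_cast at h12
        exact h12
  have hdisj : (T : Set ℕ).PairwiseDisjoint (fun m => Finset.Ico (A m) (B m)) := by
    have hlt : ∀ m m' : ℕ, m ∈ T → m < m' → Disjoint (Finset.Ico (A m) (B m)) (Finset.Ico (A m') (B m')) := by
      intro m m' hm hmm
      obtain ⟨m1, -, -⟩ := hmem m hm
      rw [Finset.disjoint_left]
      intro i hi hi'
      rw [Finset.mem_Ico] at hi hi'
      have h6 : B m ≤ A m' := by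
        have h7 : (Real.log ((m + 1 : ℕ) : ℝ) / b - a) / η ≤ (Real.log (m' : ℝ) / b - a) / η := by
          apply div_le_div_of_nonneg_right _ hη.le
          apply sub_le_sub_right
          apply div_le_div_of_nonneg_right _ hb.le
          apply Real.log_le_log (by positivity)
          exact_mod_cast hmm
        have h8 : (0:ℝ) ≤ (Real.log ((m + 1 : ℕ) : ℝ) / b - a) / η := by
          refine hlow (m + 1) ?_
          push_cast
          linarith
        have h9 : (B m : ℝ) ≤ (A m' : ℝ) :=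
          (Nat.floor_le h8).trans (h7.trans (Nat.le_ceil _))
        exact_mod_cast h9
      omega
    intro m hm m' hm' hne
    rcases lt_or_gt_of_ne hne with h | h
    · exact hlt m m' hm h
    · exact (hlt m' m hm' h).symm
  have hcard := Finset.card_le_card hsub
  rw [Finset.card_biUnion (fun x hx y hy hne => hdisj hx hy hne)] at hcard
  have hbig : 2 ≤ 1 / 4 * (1 / (F * b * η)) := by
    have h6 : 0 < F * b * η := by positivity
    rw [mul_one_div, le_div_iff₀ h6]
    nlinarith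
  have hone : ∀ m ∈ T, 3 / 4 * (1 / (F * b * η)) ≤ ((Finset.Ico (A m) (B m)).card : ℝ) := by
    intro m hm
    obtain ⟨m1, m2, m3⟩ := hmem m hm
    have hm0 : (0 : ℝ) < m := by linarith
    have hAm : (A m : ℝ) < (Real.log m / b - a) / η + 1 := Nat.ceil_lt_add_one (hlow m m1)
    have hBm : (Real.log ((m + 1 : ℕ) : ℝ) / b - a) / η - 1 < (B m : ℝ) := Nat.sub_one_lt_floor _
    have hlog : 1 / ((m + 1 : ℕ) : ℝ) ≤ Real.log ((m + 1 : ℕ) : ℝ) - Real.log m := by
      rw [← Real.log_div (by positivity) hm0.ne']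
      have h6 := Real.one_sub_inv_le_log_of_pos (x := ((m + 1 : ℕ) : ℝ) / m) (by positivity)
      refine le_trans (le_of_eq ?_) h6
      push_cast
      field_simp
      ring
    have hlog2 : 1 / F ≤ Real.log ((m + 1 : ℕ) : ℝ) - Real.log m :=
      (one_div_le_one_div_of_le (by positivity) m2).trans hlog
    have hdiff : 1 / (F * b * η) ≤ (Real.log ((m + 1 : ℕ) : ℝ) / b - a) / η - (Real.log m / b - a) / η := by
      have h6 : (Real.log ((m + 1 : ℕ) : ℝ) / b - a) / η - (Real.log m / b - a) / η =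
          (Real.log ((m + 1 : ℕ) : ℝ) - Real.log m) / (b * η) := by
        field_simp
        ring
      rw [h6]
      have h7 : 1 / (F * b * η) = (1 / F) / (b * η) := by
        field_simp
      rw [h7]
      exact div_le_div_of_nonneg_right hlog2 (by positivity)
    rw [Nat.card_Ico]
    have h8 : (B m : ℝ) - A m ≤ ((B m - A m : ℕ) : ℝ) := by
      rw [sub_le_iff_le_add]
      exact_mod_cast (by omega : B m ≤ B m - A m + A m)
    linarith
  have hsum : (T.card : ℝ) * (3 / 4 * (1 / (F * b * η))) ≤ ∑ m ∈ T, ((Finset.Ico (A m) (B m)).card : ℝ) := by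
    rw [← nsmul_eq_mul]
    exact Finset.card_nsmul_le_sum _ _ _ hone
  have hfin : (∑ m ∈ T, ((Finset.Ico (A m) (B m)).card : ℝ)) ≤ (((Finset.range M).filter (fun i : ℕ =>
      Set.Icc (a + i * η) (a + (i + 1) * η) ⊆ Ev S b)).card : ℝ) := by
    exact_mod_cast hcard
  refine le_trans ?_ (hsum.trans hfin)
  have h6 : c * (E * (δ * b) / 2) ≤ T.card := (mul_le_mul_of_nonneg_left hYlow hc0.le).trans hcount
  have h7 : 0 ≤ 3 / 4 * (1 / (F * b * η)) := by positivity
  refine le_trans ?_ (mul_le_mul_of_nonneg_right h6 h7)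
  have h8 : c * (E * (δ * b) / 2) * (3 / 4 * (1 / (F * b * η))) = c * (3 / 8) * (E / F) * M := by
    rw [hδ]
    field_simp
    ring
  rw [h8]
  have h9 : 1 / 2 ≤ E / F := by
    rw [div_le_div_iff₀ (by norm_num) hF0]
    linarith
  have h10 : c / 6 ≤ c * (3 / 8) * (E / F) := by nlinarith
  exact mul_le_mul_of_nonneg_right h10 hMr.le

end Pool.Agent.H27.LD
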