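import Pool.Agent.H27.LD.Cells

/-! Exponential moments of weighted numbers of hits along separated blocks. -/

set_option autoImplicit false

open Filter Topology MeasureTheory Finset

namespace Pool.Agent.H27.LD

open scoped Classical in
/-- indicator of a hit -/
noncomputable def hit (S : Set ℕ) (b : ℝ) (β : ℝ) : ℝ := if β ∈ Ev S b then 1 else 0

lemma hit_nonneg (S : Set ℕ) (b β : ℝ) : 0 ≤ hit S b β := by
  unfold hit; split_ifs <;> norm_num

lemma hit_meas (S : Set ℕ) (b : ℝ) : Measurable (hit S b) := by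
  classical
  unfold hit
  exact Measurable.ite (Ev_meas S b) measurable_const measurable_const

/-- weighted number of hits -/
noncomputable def wh (S : Set ℕ) (b w : ℕ → ℝ) (F : Finset ℕ) (β : ℝ) : ℝ :=
  ∑ n ∈ F, w n * hit S (b n) β

lemma wh_meas (S : Set ℕ) (b w : ℕ → ℝ) (F : Finset ℕ) : Measurable (wh S b w F) := by
  unfold wh
  exact Finset.measurable_fun_sum _ fun n _ => (hit_meas S (b n)).const_mul _

lemma exp_neg_le (s : ℝ) (h0 : 0 ≤ s) (h1 : s ≤ 1) : Real.exp (-s) ≤ 1 - s / 2 := by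
  rw [Real.exp_neg]
  have h2 := Real.add_one_le_exp s
  have h3 : 0 < s + 1 := by linarith
  refine (inv_anti₀ h3 h2).trans ?_
  rw [inv_le_iff_one_le_mul₀ h3]
  nlinarith

open Classical in
/-- one block -/
lemma block (S : Set ℕ) (b w : ℕ → ℝ) (F : Finset ℕ) (hw : ∀ n ∈ F, 0 ≤ w n)
    (hW : ∑ n ∈ F, w n ≤ 1) (c : ℝ) (a η : ℝ) (M : ℕ)
    (hcell : ∀ n ∈ F, c * M ≤ (((Finset.range M).filter (fun i : ℕ =>
      Set.Icc (a + i * η) (a + (i + 1) * η) ⊆ Ev S (b n))).card : ℝ)) :
    ∑ i ∈ Finset.range M, Real.exp (-∑ n ∈ F, w n *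
      (if Set.Icc (a + i * η) (a + (i + 1) * η) ⊆ Ev S (b n) then 1 else 0)) ≤
      M * Real.exp (-(c / 2 * ∑ n ∈ F, w n)) := by
  have h1 : ∀ i ∈ Finset.range M, Real.exp (-∑ n ∈ F, w n *
      (if Set.Icc (a + i * η) (a + (i + 1) * η) ⊆ Ev S (b n) then 1 else 0)) ≤
      1 - (∑ n ∈ F, w n *
      (if Set.Icc (a + i * η) (a + (i + 1) * η) ⊆ Ev S (b n) then 1 else 0)) / 2 := by
    intro i _
    apply exp_neg_le
    · refine Finset.sum_nonneg fun n hn => mul_nonneg (hw n hn) ?_
      split_ifs <;> norm_num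
    · refine le_trans (Finset.sum_le_sum fun n hn => ?_) hW
      have := hw n hn
      split_ifs <;> linarith
  refine (Finset.sum_le_sum h1).trans ?_
  rw [Finset.sum_sub_distrib, ← Finset.sum_div, Finset.sum_comm]
  simp only [Finset.sum_const, Finset.card_range, nsmul_eq_mul, mul_one]
  have h2 : ∑ n ∈ F, w n * (c * M) ≤ ∑ n ∈ F, ∑ i ∈ Finset.range M, w n *
      (if Set.Icc (a + i * η) (a + (i + 1) * η) ⊆ Ev S (b n) then (1:ℝ) else 0) := by
    refine Finset.sum_le_sum fun n hn => ?_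
    rw [← Finset.mul_sum]
    apply mul_le_mul_of_nonneg_left _ (hw n hn)
    refine (hcell n hn).trans (le_of_eq ?_)
    rw [Finset.card_filter]
    push_cast
    rfl
  have h3 : 1 - c / 2 * ∑ n ∈ F, w n ≤ Real.exp (-(c / 2 * ∑ n ∈ F, w n)) := by
    have := Real.add_one_le_exp (-(c / 2 * ∑ n ∈ F, w n))
    linarith
  have h4 : (M : ℝ) * (1 - c / 2 * ∑ n ∈ F, w n) ≤ M * Real.exp (-(c / 2 * ∑ n ∈ F, w n)) :=
    mul_le_mul_of_nonneg_left h3 (Nat.cast_nonneg _)
  refine le_trans ?_ h4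
  rw [← Finset.sum_mul] at h2
  nlinarith

/-- a partition of an interval into cells -/
lemma lint_cells (f : ℝ → ENNReal) (a η : ℝ) (hη : 0 < η) (M : ℕ) :
    ∫⁻ β in Set.Ico a (a + M * η), f β ≤
      ∑ i ∈ Finset.range M, ∫⁻ β in Set.Ico (a + i * η) (a + (i + 1) * η), f β := by
  induction M with
  | zero => simp
  | succ M ih =>
    rw [Finset.sum_range_succ]
    have h1 : Set.Ico a (a + ((M + 1 : ℕ) : ℝ) * η) ⊆
        Set.Ico a (a + M * η) ∪ Set.Ico (a + M * η) (a + (M + 1) * η) := by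
      intro x hx
      push_cast at hx
      by_cases h : x < a + M * η
      · exact Or.inl ⟨hx.1, h⟩
      · exact Or.inr ⟨not_lt.1 h, hx.2⟩
    calc ∫⁻ β in Set.Ico a (a + ((M + 1 : ℕ) : ℝ) * η), f β
        ≤ ∫⁻ β in Set.Ico a (a + M * η) ∪ Set.Ico (a + M * η) (a + (M + 1) * η), f β :=
          lintegral_mono_set h1
      _ ≤ (∫⁻ β in Set.Ico a (a + M * η), f β) +
          ∫⁻ β in Set.Ico (a + M * η) (a + (M + 1) * η), f β :=
          lintegral_union_le f (Set.Ico a (a + M * η)) (Set.Ico (a + M * η) (a + (M + 1) * η))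
      _ ≤ _ := add_le_add ih le_rfl

open Classical in
/-- exponential moments over consecutive blocks -/
theorem moments (S : Set ℕ) (b w : ℕ → ℝ) (Fb : ℕ → Finset ℕ)
    (hw : ∀ j, ∀ n ∈ Fb j, 0 ≤ w n) (hW : ∀ j, ∑ n ∈ Fb j, w n ≤ 1) (c u v : ℝ)
    (δ : ℕ → ℝ) (M : ℕ → ℕ) (hδ0 : ∀ j, 0 < δ j) (hδ : ∀ j, δ j = M j * δ (j + 1))
    (hcell : ∀ j, ∀ n ∈ Fb j, ∀ a, u ≤ a → a + δ j ≤ v → c * M j ≤
      (((Finset.range (M j)).filter (fun i : ℕ =>
        Set.Icc (a + i * δ (j + 1)) (a + (i + 1) * δ (j + 1)) ⊆ Ev S (b n))).card : ℝ)) :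
    ∀ r j : ℕ, ∀ a, u ≤ a → a + δ j ≤ v →
      ∫⁻ β in Set.Ico a (a + δ j), ENNReal.ofReal
        (Real.exp (-∑ i ∈ Finset.Ico j (j + r), wh S b w (Fb i) β)) ≤
      ENNReal.ofReal (δ j * Real.exp (-(c / 2 * ∑ i ∈ Finset.Ico j (j + r), ∑ n ∈ Fb i, w n))) := by
  intro r
  induction r with
  | zero =>
    intro j a _ _
    simp
  | succ r ih =>
    intro j a ha1 ha2
    set η := δ (j + 1) with hη
    have hη0 : 0 < η := hδ0 _
    have hMj : 0 < M j := by
      rcases Nat.eq_zero_or_pos (M j) with h | h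
      · have := hδ j
        rw [h] at this
        have h2 := hδ0 j
        simp at this
        linarith
      · exact h
    have hδj : δ j = M j * η := hδ j
    have hsplit : ∀ g : ℕ → ℝ, ∑ i ∈ Finset.Ico j (j + (r + 1)), g i =
        g j + ∑ i ∈ Finset.Ico (j + 1) (j + 1 + r), g i := by
      intro g
      rw [Finset.sum_eq_sum_Ico_succ_bot (by omega)]
      congr 2
      congr 1
      omega
    let A : ℕ → ℝ := fun i => Real.exp (-∑ n ∈ Fb j, w n *
      (if Set.Icc (a + i * η) (a + (i + 1) * η) ⊆ Ev S (b n) then 1 else 0))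
    let W' := ∑ i ∈ Finset.Ico (j + 1) (j + 1 + r), ∑ n ∈ Fb i, w n
    have hcellint : ∀ i ∈ Finset.range (M j),
        ∫⁻ β in Set.Ico (a + i * η) (a + (i + 1) * η), ENNReal.ofReal
          (Real.exp (-∑ i ∈ Finset.Ico j (j + (r + 1)), wh S b w (Fb i) β)) ≤
        ENNReal.ofReal (A i * (η * Real.exp (-(c / 2 * W')))) := by
      intro i hi
      have hi' : (i : ℝ) + 1 ≤ M j := by
        have := Finset.mem_range.1 hi
        exact_mod_cast this
      have e1 : a + (i + 1) * η = a + i * η + η := by ring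
      have h1 : ∫⁻ β in Set.Ico (a + i * η) (a + (i + 1) * η), ENNReal.ofReal
          (Real.exp (-∑ i ∈ Finset.Ico j (j + (r + 1)), wh S b w (Fb i) β)) ≤
          ∫⁻ β in Set.Ico (a + i * η) (a + (i + 1) * η), ENNReal.ofReal (A i) * ENNReal.ofReal
          (Real.exp (-∑ i ∈ Finset.Ico (j + 1) (j + 1 + r), wh S b w (Fb i) β)) := by
        apply setLIntegral_mono' measurableSet_Ico
        intro β hβ
        rw [← ENNReal.ofReal_mul (Real.exp_pos _).le]
        apply ENNReal.ofReal_le_ofReal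
        rw [hsplit, neg_add, Real.exp_add]
        apply mul_le_mul_of_nonneg_right _ (Real.exp_pos _).le
        apply Real.exp_le_exp.2
        apply neg_le_neg
        unfold wh
        refine Finset.sum_le_sum fun n hn => ?_
        apply mul_le_mul_of_nonneg_left _ (hw j n hn)
        unfold hit
        by_cases h : Set.Icc (a + i * η) (a + (i + 1) * η) ⊆ Ev S (b n)
        · rw [if_pos h, if_pos (h ⟨hβ.1, hβ.2.le⟩)]
        · rw [if_neg h]
          split_ifs <;> norm_num
      refine h1.trans ?_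
      rw [lintegral_const_mul']
      · rw [ENNReal.ofReal_mul (Real.exp_pos _).le]
        gcongr
        rw [e1]
        have hlow : u ≤ a + i * η := by
          have : 0 ≤ (i : ℝ) * η := by positivity
          linarith
        have hup : a + i * η + η ≤ v := by
          have : ((i : ℝ) + 1) * η ≤ M j * η := mul_le_mul_of_nonneg_right hi' hη0.le
          rw [hδj] at ha2
          linarith
        exact ih (j + 1) (a + i * η) hlow hup
      · exact ENNReal.ofReal_ne_top
    have h2 : ∫⁻ β in Set.Ico a (a + δ j), ENNReal.ofReal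
        (Real.exp (-∑ i ∈ Finset.Ico j (j + (r + 1)), wh S b w (Fb i) β)) ≤
        ∑ i ∈ Finset.range (M j), ENNReal.ofReal (A i * (η * Real.exp (-(c / 2 * W')))) := by
      rw [hδj]
      exact (lint_cells _ a η hη0 (M j)).trans (Finset.sum_le_sum hcellint)
    refine h2.trans ?_
    rw [← ENNReal.ofReal_sum_of_nonneg (fun i _ => by positivity)]
    apply ENNReal.ofReal_le_ofReal
    rw [← Finset.sum_mul, hsplit, mul_add, neg_add, Real.exp_add]
    have h3 := block S b w (Fb j) (hw j) (hW j) c a η (M j) (fun n hn => hcell j n hn a ha1 ha2)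
    calc (∑ i ∈ Finset.range (M j), A i) * (η * Real.exp (-(c / 2 * W')))
        ≤ (M j * Real.exp (-(c / 2 * ∑ n ∈ Fb j, w n))) * (η * Real.exp (-(c / 2 * W'))) := by
          apply mul_le_mul_of_nonneg_right h3 (by positivity)
      _ = δ j * (Real.exp (-(c / 2 * ∑ n ∈ Fb j, w n)) * Real.exp (-(c / 2 * W'))) := by
          rw [hδj]; ring

end Pool.Agent.H27.LD
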