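import Pool.Agent.H27.LD.Tail2

/-! Lower weighted density of the hits, for almost all `α > 1`. -/

set_option autoImplicit false

open Filter Topology MeasureTheory Finset

namespace Pool.Agent.H27.LD

/-- the weights have bounded mass on the dyadic blocks of exponents -/
def BddMass (b w : ℕ → ℝ) : Prop :=
  ∃ C : ℝ, ∀ k : ℕ, ∀ F : Finset ℕ, (∀ n ∈ F, (2 : ℝ) ^ k ≤ b n ∧ b n < 2 ^ (k + 1)) →
    ∑ n ∈ F, w n ≤ C

open Classical in
lemma mass_of_bdd (R : ℝ) (hR : 1 < R) (b w : ℕ → ℝ) (hw : ∀ n, 0 ≤ w n) (h : BddMass b w) :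
    ∃ C : ℝ, 0 < C ∧ Mass R b (fun n => w n / C) := by
  obtain ⟨C, hC⟩ := h
  have h2 : (1 : ℝ) < 2 := by norm_num
  obtain ⟨L, hL⟩ := ((tendsto_pow_atTop_atTop_of_one_lt h2).eventually_ge_atTop R).exists
  obtain ⟨C', hC'⟩ : ∃ C', C' = max C 1 := ⟨_, rfl⟩
  have hC'0 : 0 < C' := by rw [hC']; exact lt_of_lt_of_le one_pos (le_max_right _ _)
  refine ⟨(L + 1) * C', by positivity, fun k F hF => ?_⟩
  rw [← Finset.sum_div, div_le_one (by positivity)]
  have h1k : (1:ℝ) ≤ R ^ k := one_le_pow₀ hR.le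
  let j₀ := idx 2 (R ^ k)
  have hj₀ := idx_spec 2 (R ^ k) h2 h1k
  have hmaps : ∀ n ∈ F, idx 2 (b n) ∈ Finset.Icc j₀ (j₀ + L) := by
    intro n hn
    obtain ⟨h3, h4⟩ := hF n hn
    have h5 := idx_spec 2 (b n) h2 (h1k.trans h3)
    rw [Finset.mem_Icc]
    constructor
    · exact idx_ge 2 (b n) h2 j₀ (hj₀.1.trans h3)
    · have h6 : (2:ℝ) ^ idx 2 (b n) < 2 ^ (j₀ + 1 + L) := by
        calc (2:ℝ) ^ idx 2 (b n) ≤ b n := h5.1
          _ < R ^ (k + 1) := h4
          _ = R ^ k * R := pow_succ _ _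
          _ ≤ 2 ^ (j₀ + 1) * 2 ^ L :=
            mul_le_mul hj₀.2.le hL (by linarith) (by positivity)
          _ = 2 ^ (j₀ + 1 + L) := (pow_add _ _ _).symm
      have h7 := (pow_lt_pow_iff_right₀ h2).1 h6
      omega
  rw [← Finset.sum_fiberwise_of_maps_to hmaps]
  have h8 : ∀ j ∈ Finset.Icc j₀ (j₀ + L), ∑ n ∈ F.filter (fun n => idx 2 (b n) = j), w n ≤ C' := by
    intro j _
    refine (hC j _ ?_).trans (by rw [hC']; exact le_max_left _ _)
    intro n hn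
    rw [Finset.mem_filter] at hn
    obtain ⟨h3, -⟩ := hF n hn.1
    have h5 := idx_spec 2 (b n) h2 (h1k.trans h3)
    rw [hn.2] at h5
    exact h5
  refine (Finset.sum_le_card_nsmul _ _ _ h8).trans (le_of_eq ?_)
  rw [Nat.card_Icc, nsmul_eq_mul]
  have : j₀ + L + 1 - j₀ = L + 1 := by omega
  rw [this]
  push_cast
  ring

open Classical in
/-- the local statement -/
lemma local_metric (S : Set ℕ) (c θ : ℝ) (hc0 : 0 < c) (X₀ : ℕ) (hθ0 : 0 < θ) (hθ1 : θ < 1)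
    (hS : Dense S c θ X₀) (u : ℝ) (hu : 0 < u) (b w : ℕ → ℝ) (hb : Tendsto b atTop atTop)
    (hw : ∀ n, 0 ≤ w n) (hm : Mass (8 / (1 - θ)) b w)
    (hdiv : Tendsto (fun N : ℕ => ∑ n ∈ Finset.range N, w n) atTop atTop) :
    ∀ᵐ β : ℝ, β ∈ Set.Ico u (2 * u) → ∀ᶠ N : ℕ in atTop,
      c / 96 * ∑ n ∈ Finset.range N, w n ≤ wh S b w (Finset.range N) β := by
  obtain ⟨k₀, hk₀⟩ := tail S c θ hc0 X₀ hθ0 hθ1 hS u hu
  have htail := hk₀ b w hw hm
  set R : ℝ := 8 / (1 - θ) with hR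
  obtain ⟨n₀, hn₀⟩ := eventually_atTop.1 (hb.eventually_ge_atTop (R ^ k₀))
  have hex : ∀ m : ℕ, ∃ N : ℕ, (m : ℝ) ≤ ∑ n ∈ Finset.range N, w n := fun m =>
    (hdiv.eventually_ge_atTop (m : ℝ)).exists
  let NN : ℕ → ℕ := fun m => Nat.find (hex m)
  have hNN : ∀ m : ℕ, (m : ℝ) ≤ ∑ n ∈ Finset.range (NN m), w n := fun m => Nat.find_spec (hex m)
  have hNmin : ∀ m N : ℕ, (m : ℝ) ≤ ∑ n ∈ Finset.range N, w n → NN m ≤ N := fun m N h =>
    Nat.find_min' (hex m) h
  let F : ℕ → Finset ℕ := fun m => (Finset.range (NN m)).filter (fun n => R ^ k₀ ≤ b n)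
  obtain ⟨T, hT⟩ : ∃ T, T = ∑ n ∈ Finset.range n₀, w n := ⟨_, rfl⟩
  have hT0 : 0 ≤ T := by rw [hT]; exact Finset.sum_nonneg fun n _ => hw n
  have hFW : ∀ m : ℕ, (m : ℝ) - T ≤ ∑ n ∈ F m, w n := by
    intro m
    have h1 := hNN m
    have h2 : ∑ n ∈ Finset.range (NN m), w n ≤ T + ∑ n ∈ F m, w n := by
      rw [← Finset.sum_filter_add_sum_filter_not (Finset.range (NN m)) (fun n => R ^ k₀ ≤ b n),
        add_comm, hT]
      apply add_le_add _ le_rfl
      apply Finset.sum_le_sum_of_subset_of_nonneg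
      · intro n hn
        rw [Finset.mem_filter] at hn
        rw [Finset.mem_range]
        by_contra hcon
        exact hn.2 (hn₀ n (not_lt.1 hcon))
      · intro n _ _
        exact hw n
    linarith
  let bad : ℕ → Set ℝ := fun m =>
    {β : ℝ | wh S b w (F m) β ≤ c / 48 * ∑ n ∈ F m, w n} ∩ Set.Ico u (2 * u)
  have hbad : ∀ m, volume (bad m) ≤
      ENNReal.ofReal (2 * u * Real.exp (c / 48 * T) * (Real.exp (-(c / 48))) ^ m) := by
    intro m
    refine (htail (F m) (fun n hn => (Finset.mem_filter.1 hn).2)).trans ?_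
    apply ENNReal.ofReal_le_ofReal
    rw [mul_assoc (2 * u)]
    apply mul_le_mul_of_nonneg_left _ (by positivity : 0 ≤ 2 * u)
    rw [← Real.exp_nat_mul, ← Real.exp_add]
    apply Real.exp_le_exp.2
    have h1 : c / 48 * ((m : ℝ) - T) ≤ c / 48 * ∑ n ∈ F m, w n :=
      mul_le_mul_of_nonneg_left (hFW m) (by positivity)
    linarith
  have hsum : ∑' m, volume (bad m) ≠ ⊤ := by
    have h1 : Summable (fun m : ℕ => 2 * u * Real.exp (c / 48 * T) * (Real.exp (-(c / 48))) ^ m) := by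
      apply Summable.mul_left
      apply summable_geometric_of_lt_one (Real.exp_pos _).le
      rw [Real.exp_lt_one_iff]
      linarith [show 0 < c / 48 by positivity]
    have h2 := ENNReal.tsum_le_tsum hbad
    refine ne_top_of_le_ne_top ?_ h2
    exact h1.tsum_ofReal_ne_top
  have hae := ae_eventually_notMem hsum
  filter_upwards [hae] with β hβ hβu
  have hfl : Tendsto (fun N : ℕ => ⌊∑ n ∈ Finset.range N, w n⌋₊) atTop atTop :=
    tendsto_nat_floor_atTop.comp hdiv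
  filter_upwards [hfl.eventually hβ, hdiv.eventually_ge_atTop (2 * (1 + T)),
    hdiv.eventually_ge_atTop 0] with N h1 h2 h3
  set Sg := ∑ n ∈ Finset.range N, w n with hSg
  obtain ⟨m, hm'⟩ : ∃ m : ℕ, m = ⌊Sg⌋₊ := ⟨_, rfl⟩
  rw [← hm'] at h1
  have h4 : (m : ℝ) ≤ Sg := by rw [hm']; exact Nat.floor_le h3
  have h5 : Sg < m + 1 := by rw [hm']; exact Nat.lt_floor_add_one _
  have h6 : c / 48 * ∑ n ∈ F m, w n < wh S b w (F m) β := by
    by_contra hcon
    exact h1 ⟨not_lt.1 hcon, hβu⟩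
  have h7 : wh S b w (F m) β ≤ wh S b w (Finset.range N) β := by
    unfold wh
    apply Finset.sum_le_sum_of_subset_of_nonneg
    · refine (Finset.filter_subset _ _).trans ?_
      exact Finset.range_subset_range.2 (hNmin m N h4)
    · intro n _ _
      exact mul_nonneg (hw n) (hit_nonneg S (b n) β)
  have h8 := hFW m
  have h9 : c / 48 * ((m : ℝ) - T) ≤ c / 48 * ∑ n ∈ F m, w n :=
    mul_le_mul_of_nonneg_left h8 (by positivity)
  have h10 : c / 96 * Sg ≤ c / 48 * ((m : ℝ) - T) := by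
    have : Sg / 2 ≤ (m : ℝ) - T := by linarith
    calc c / 96 * Sg = c / 48 * (Sg / 2) := by ring
      _ ≤ _ := mul_le_mul_of_nonneg_left this (by positivity)
  linarith

open Classical in
/-- **Lower weighted density.** -/
theorem metric (S : Set ℕ) (c θ : ℝ) (hc0 : 0 < c) (X₀ : ℕ) (hθ0 : 0 < θ) (hθ1 : θ < 1)
    (hS : Dense S c θ X₀) (b w : ℕ → ℝ) (hb : Tendsto b atTop atTop)
    (hw : ∀ n, 0 ≤ w n) (hm : BddMass b w)
    (hdiv : Tendsto (fun N : ℕ => ∑ n ∈ Finset.range N, w n) atTop atTop) :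
    ∀ᵐ α : ℝ, 1 < α → ∀ᶠ N : ℕ in atTop,
      c / 96 * ∑ n ∈ Finset.range N, w n ≤
        ∑ n ∈ (Finset.range N).filter
          (fun n : ℕ => ∃ m ∈ S, (m : ℝ) ≤ α ^ b n ∧ α ^ b n ≤ m + 1), w n := by
  have hq : 0 < 1 - θ := by linarith
  obtain ⟨R, hR⟩ : ∃ R : ℝ, R = 8 / (1 - θ) := ⟨_, rfl⟩
  have hR1 : 1 < R := by
    rw [hR, lt_div_iff₀ hq]; nlinarith
  obtain ⟨C, hC0, hC⟩ := mass_of_bdd R hR1 b w hw hm
  rw [hR] at hC
  have hdiv' : Tendsto (fun N : ℕ => ∑ n ∈ Finset.range N, w n / C) atTop atTop := by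
    have h1 : (fun N : ℕ => ∑ n ∈ Finset.range N, w n / C) =
        fun N : ℕ => (∑ n ∈ Finset.range N, w n) / C := by
      funext N
      rw [Finset.sum_div]
    rw [h1]
    exact hdiv.atTop_div_const hC0
  have hloc : ∀ i : ℤ, ∀ᵐ β : ℝ, β ∈ Set.Ico ((2:ℝ) ^ i) (2 * (2:ℝ) ^ i) →
      ∀ᶠ N : ℕ in atTop, c / 96 * ∑ n ∈ Finset.range N, w n / C ≤
        wh S b (fun n => w n / C) (Finset.range N) β := fun i =>
    local_metric S c θ hc0 X₀ hθ0 hθ1 hS ((2:ℝ) ^ i) (by positivity) b (fun n => w n / C) hb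
      (fun n => div_nonneg (hw n) hC0.le) hC hdiv'
  have hall : ∀ᵐ β : ℝ, 0 < β → ∀ᶠ N : ℕ in atTop, c / 96 * ∑ n ∈ Finset.range N, w n ≤
      wh S b w (Finset.range N) β := by
    filter_upwards [ae_all_iff.2 hloc] with β hβ hβ0
    obtain ⟨i, hi1, hi2⟩ := exists_mem_Ico_zpow hβ0 (by norm_num : (1:ℝ) < 2)
    have h1 := hβ i ⟨hi1, by rw [zpow_add₀ (by norm_num)] at hi2; linarith⟩
    filter_upwards [h1] with N hN
    have h2 : ∑ n ∈ Finset.range N, w n / C = (∑ n ∈ Finset.range N, w n) / C := by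
      rw [Finset.sum_div]
    have h3 : wh S b (fun n => w n / C) (Finset.range N) β = wh S b w (Finset.range N) β / C := by
      unfold wh
      rw [Finset.sum_div]
      refine Finset.sum_congr rfl fun n _ => ?_
      ring
    rw [h2, h3, ← mul_div_assoc] at hN
    exact (div_le_div_iff_of_pos_right hC0).1 hN
  obtain ⟨W, hW⟩ : ∃ W : Set ℝ, W = {β : ℝ | ¬ (0 < β → ∀ᶠ N : ℕ in atTop,
      c / 96 * ∑ n ∈ Finset.range N, w n ≤ wh S b w (Finset.range N) β)} := ⟨_, rfl⟩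
  have hW0 : volume W = 0 := by rw [hW]; exact hall
  have hWe : volume (Real.exp '' W) = 0 :=
    addHaar_image_eq_zero_of_differentiableOn_of_addHaar_eq_zero volume
      Real.differentiable_exp.differentiableOn hW0
  have hae : ∀ᵐ α : ℝ, α ∉ Real.exp '' W := measure_eq_zero_iff_ae_notMem.1 hWe
  filter_upwards [hae] with α hα hα1
  have hα0 : 0 < α := by linarith
  by_contra hcon
  apply hα
  refine ⟨Real.log α, ?_, Real.exp_log hα0⟩
  rw [hW]
  intro hcon2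
  apply hcon
  filter_upwards [hcon2 (Real.log_pos hα1)] with N hN
  refine hN.trans (le_of_eq ?_)
  unfold wh
  rw [Finset.sum_filter]
  refine Finset.sum_congr rfl fun n _ => ?_
  have h2 : Real.exp (Real.log α * b n) = α ^ b n := (Real.rpow_def_of_pos hα0 _).symm
  unfold hit Ev
  simp only [Set.mem_ofPred_eq, h2, mul_ite, mul_one, mul_zero]

end Pool.Agent.H27.LD
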