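import Pool.Agent.H27.G.R_pool_sql_team_seeded_843ab51a.Results.MP_31d0eb_nt.BalancedPrimes
import Pool.Agent.H27.LD.Metric

/-! Positions `x` at which all windows `(x, x + H)`, `(log x)^2 ≤ H ≤ (log x)^2 + √x`, contain the
right order of primes have positive density in all intervals `(X, X + Y]`, `X ^ θ ≤ Y ≤ X`. -/

set_option autoImplicit false

open Filter Topology MeasureTheory Finset

namespace Pool.Agent.H27.LD

/-- number of primes in the open interval `(x, x + H)` -/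
noncomputable def primesIn (x H : ℝ) : ℕ := {p : ℕ | p.Prime ∧ x < p ∧ (p : ℝ) < x + H}.ncard

/-- the interval `(x, x + H)` contains between `c H / log x` and `C H / log x` primes, for all `H`
with `(log x)^2 ≤ H ≤ (log x)^2 + √x` -/
def Regular (c C x : ℝ) : Prop := ∀ H : ℝ, Real.log x ^ 2 ≤ H → H ≤ Real.log x ^ 2 + √x →
  c * H / Real.log x ≤ primesIn x H ∧ (primesIn x H : ℝ) ≤ C * H / Real.log x

/-- integers `m` such that all real `x` in `[m, m + 1]` are regular -/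
def goodInts (c C : ℝ) : Set ℕ := {m : ℕ | ∀ x : ℝ, (m : ℝ) ≤ x → x ≤ m + 1 → Regular c C x}

open Pool.Agent.Results.MP_31d0eb_nt.BalancedPrimes

lemma finite_count (x H : ℝ) : {q : ℕ | q ∈ primes ∧ x < q ∧ (q : ℝ) ≤ x + H}.Finite := by
  apply Set.Finite.subset (Finset.finite_toSet (Finset.range (⌊x + H⌋₊ + 1)))
  rintro q ⟨-, -, hq⟩
  rw [mem_coe, mem_range]
  exact Nat.lt_succ_of_le (Nat.le_floor hq)

/-- numerical requirements -/
def NReq (θ L X : ℝ) : Prop :=
  10 ≤ L ∧ 4 * (L ^ 2 + √(4 * X)) ≤ X ^ θ ∧ 4 * L ^ 2 ≤ √X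

lemma regular_of (θ lam : ℝ) (hlam : 1 ≤ lam) (X Y p : ℕ) (L : ℝ) (hL : L = Real.log X)
    (hreq : NReq θ L X) (hY : (X : ℝ) ^ θ ≤ Y) (hX1 : 1 ≤ X)
    (h : RightOrder primes lam X Y p) (x : ℝ) (hx1 : (X : ℝ) < x) (hx2 : x ≤ 4 * X)
    (hxp : x < p) (hp : (p : ℝ) ≤ x + L ^ 2 / 2) : Regular (1 / (2 * lam)) (4 * lam) x := by
  obtain ⟨r1, r2, r3⟩ := hreq
  have hX0 : (0 : ℝ) < X := by exact_mod_cast hX1
  have hx0 : 0 < x := by linarith
  have hl1 : L ≤ Real.log x := by rw [hL]; exact Real.log_le_log hX0 hx1.le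
  have hl2 : Real.log x ≤ L + 2 := by
    have h1 := Real.log_le_log hx0 hx2
    rw [Real.log_mul (by norm_num) hX0.ne', ← hL] at h1
    have h2 : Real.log 4 ≤ 2 := by
      have e1 : Real.log 4 = 2 * Real.log 2 := by
        rw [show (4 : ℝ) = 2 ^ (2 : ℕ) by norm_num, Real.log_pow]; norm_num
      have e2 := Real.log_two_lt_d9
      linarith
    linarith
  have hl3 : Real.log x ≤ 2 * L := by linarith
  have hlx0 : 0 < Real.log x := by linarith
  intro H hH1 hH2
  have hLH : L ^ 2 ≤ H := by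
    refine le_trans ?_ hH1
    exact pow_le_pow_left₀ (by linarith) hl1 2
  have hH0 : 0 < H := by nlinarith
  have hHY : H ≤ Y := by
    have h1 : Real.log x ^ 2 ≤ 4 * L ^ 2 := by
      calc Real.log x ^ 2 ≤ (2 * L) ^ 2 := pow_le_pow_left₀ hlx0.le hl3 2
        _ = 4 * L ^ 2 := by ring
    have h2 : √x ≤ √(4 * X) := Real.sqrt_le_sqrt hx2
    have h3 : 0 ≤ √(4 * (X : ℝ)) := Real.sqrt_nonneg _
    linarith
  constructor
  · -- lower bound, with `H' < H`
    obtain ⟨H', hH'⟩ : ∃ H', H' = max ((p : ℝ) - x) (H / 2) := ⟨_, rfl⟩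
    have b1 : H' < H := by
      rw [hH', max_lt_iff]
      constructor <;> nlinarith
    have b2 : (p : ℝ) - x ≤ H' := by rw [hH']; exact le_max_left _ _
    have b3 : H / 2 ≤ H' := by rw [hH']; exact le_max_right _ _
    obtain ⟨s1, -⟩ := h x H' hxp (by linarith) (by linarith)
    rw [← hL] at s1
    have s2 : (count primes x H' : ℝ) ≤ primesIn x H := by
      apply Nat.cast_le.2
      unfold count primesIn
      apply Set.ncard_le_ncard
      · rintro q ⟨q1, q2, q3⟩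
        exact ⟨q1, q2, by linarith⟩
      · refine (finite_count x H).subset ?_
        rintro q ⟨q1, q2, q3⟩
        exact ⟨q1, q2, q3.le⟩
    refine le_trans ?_ (s1.trans s2)
    rw [div_le_div_iff₀ hlx0 (by positivity)]
    have e1 : 1 / (2 * lam) * H * (lam * L) = H / 2 * L := by field_simp
    rw [e1]
    exact mul_le_mul b3 hl1 (by linarith) (by linarith)
  · obtain ⟨-, s1⟩ := h x H hxp (by nlinarith) hHY
    rw [← hL] at s1
    have s2 : (primesIn x H : ℝ) ≤ count primes x H := by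
      apply Nat.cast_le.2
      unfold count primesIn
      apply Set.ncard_le_ncard
      · rintro q ⟨q1, q2, q3⟩
        exact ⟨q1, q2, q3.le⟩
      · exact finite_count x H
    refine s2.trans (s1.trans ?_)
    rw [le_div_iff₀ hlx0]
    have hL0 : 0 < L := by linarith
    have e1 : (1 + H / L) * Real.log x ≤ 4 * H := by
      have e2 : Real.log x ≤ 2 * H := by nlinarith
      have e3 : H / L * Real.log x ≤ 2 * H := by
        rw [div_mul_eq_mul_div, div_le_iff₀ hL0]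
        nlinarith
      linarith
    calc lam * (1 + H / L) * Real.log x = lam * ((1 + H / L) * Real.log x) := by ring
      _ ≤ lam * (4 * H) := mul_le_mul_of_nonneg_left e1 (by linarith)
      _ = 4 * lam * H := by ring

open Classical in
lemma count_ints (c₁ C θ lam : ℝ) (hc₁ : 0 < c₁) (hlam : 1 ≤ lam)
    (hClam : C / √lam ≤ c₁ / 2) (X Y : ℕ) (L : ℝ) (hL : L = Real.log X)
    (hreq : NReq θ L X) (hreq2 : 4 * (L ^ 2 + 2) ≤ c₁ * (X : ℝ) ^ θ / L)
    (hX1 : 1 ≤ X) (hY : (X : ℝ) ^ θ ≤ Y) (hYX : Y ≤ X)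
    (hbad : ({p : ℕ | p ∈ primes ∧ X < p ∧ p ≤ X + Y ∧ ¬ RightOrder primes lam X Y p}.ncard : ℝ) ≤
        C / √lam * (Y / L))
    (hall : c₁ * Y / L ≤ ({p : ℕ | p.Prime ∧ X < p ∧ p ≤ X + Y}.ncard : ℝ)) :
    c₁ / (64 * lam) * Y ≤ (((Finset.Ioc X (X + Y)).filter
      (fun m => m ∈ goodInts (1 / (2 * lam)) (4 * lam))).card : ℝ) := by
  obtain ⟨r1, r2, r3⟩ := id hreq
  have hX0 : (0 : ℝ) < X := by exact_mod_cast hX1
  have hL0 : 0 < L := by linarith
  obtain ⟨ℓ, hℓ⟩ : ∃ ℓ : ℕ, ℓ = ⌊L ^ 2 / 2⌋₊ := ⟨_, rfl⟩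
  have hℓ1 : (ℓ : ℝ) ≤ L ^ 2 / 2 := by rw [hℓ]; exact Nat.floor_le (by positivity)
  have hℓ2 : L ^ 2 / 2 < ℓ + 1 := by rw [hℓ]; exact Nat.lt_floor_add_one _
  have hℓ3 : L ^ 2 / 4 ≤ (ℓ : ℝ) - 1 := by nlinarith
  have hℓ4 : 2 ≤ ℓ := by
    have : (2:ℝ) ≤ ℓ := by nlinarith
    exact_mod_cast this
  -- good primes
  let G : Finset ℕ := (Finset.Ioc (X + ℓ + 1) (X + Y)).filter
    (fun p => p.Prime ∧ RightOrder primes lam X Y p)
  have hG : c₁ / 4 * (Y / L) ≤ (G.card : ℝ) := by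
    have h1 : {p : ℕ | p.Prime ∧ X < p ∧ p ≤ X + Y} ⊆
        (G : Set ℕ) ∪ ({p : ℕ | p ∈ primes ∧ X < p ∧ p ≤ X + Y ∧ ¬ RightOrder primes lam X Y p} ∪
          (Finset.Ioc X (X + ℓ + 1) : Finset ℕ)) := by
      rintro p ⟨p1, p2, p3⟩
      by_cases hp : RightOrder primes lam X Y p
      · by_cases hp' : p ≤ X + ℓ + 1
        · right; right
          rw [mem_coe, mem_Ioc]
          exact ⟨p2, hp'⟩
        · left
          simp only [G, coe_filter, mem_Ioc, Set.mem_ofPred_eq]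
          exact ⟨⟨by omega, p3⟩, p1, hp⟩
      · right; left
        exact ⟨p1, p2, p3, hp⟩
    have hfin : {p : ℕ | p ∈ primes ∧ X < p ∧ p ≤ X + Y ∧ ¬ RightOrder primes lam X Y p}.Finite := by
      apply Set.Finite.subset (Finset.finite_toSet (Ioc X (X + Y)))
      rintro p ⟨-, p2, p3, -⟩
      rw [mem_coe, mem_Ioc]
      exact ⟨p2, p3⟩
    have h2 := Set.ncard_le_ncard h1
      ((Finset.finite_toSet G).union (hfin.union (Finset.finite_toSet _)))
    have h3 := h2.trans ((Set.ncard_union_le _ _).trans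
      (Nat.add_le_add_left (Set.ncard_union_le _ _) _))
    rw [Set.ncard_coe_finset, Set.ncard_coe_finset, Nat.card_Ioc] at h3
    have h4 : X + ℓ + 1 - X = ℓ + 1 := by omega
    rw [h4] at h3
    have h5 : ({p : ℕ | p.Prime ∧ X < p ∧ p ≤ X + Y}.ncard : ℝ) ≤ G.card +
        ({p : ℕ | p ∈ primes ∧ X < p ∧ p ≤ X + Y ∧ ¬ RightOrder primes lam X Y p}.ncard +
          (ℓ + 1)) := by exact_mod_cast h3
    have hYL : 0 ≤ (Y : ℝ) / L := by positivity
    have h6 : C / √lam * (Y / L) ≤ c₁ / 2 * (Y / L) := mul_le_mul_of_nonneg_right hClam hYL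
    have h7 : (ℓ : ℝ) + 1 ≤ c₁ / 4 * (Y / L) := by
      have e1 : c₁ * (X : ℝ) ^ θ / L ≤ c₁ * Y / L := by
        apply div_le_div_of_nonneg_right _ hL0.le
        exact mul_le_mul_of_nonneg_left hY hc₁.le
      have e2 : c₁ / 4 * (Y / L) = c₁ * Y / L / 4 := by ring
      rw [e2]
      nlinarith
    have h8 : c₁ * Y / L = c₁ * (Y / L) := by ring
    rw [h8] at hall
    linarith
  -- double counting
  let T : Finset ℕ := (Finset.Ioc X (X + Y)).filter
      (fun m => m ∈ goodInts (1 / (2 * lam)) (4 * lam))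
  obtain ⟨K, hK⟩ : ∃ K : ℕ, K = ⌊2 * lam * L⌋₊ := ⟨_, rfl⟩
  have hYXr : (Y : ℝ) ≤ X := by exact_mod_cast hYX
  have hdc := Finset.card_mul_le_card_mul (s := G) (t := T) (m := ℓ - 1) (n := K)
    (fun p m : ℕ => p ≤ m + ℓ ∧ m + 2 ≤ p)
    (by
      intro p hp
      simp only [G, Finset.mem_filter, Finset.mem_Ioc] at hp
      obtain ⟨⟨p1, p2⟩, p3, p4⟩ := hp
      have hsub : Finset.Icc (p - ℓ) (p - 2) ⊆
          Finset.bipartiteAbove (fun p m : ℕ => p ≤ m + ℓ ∧ m + 2 ≤ p) T p := by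
        intro m hm
        rw [Finset.mem_Icc] at hm
        rw [Finset.mem_bipartiteAbove]
        refine ⟨?_, by omega, by omega⟩
        simp only [T, Finset.mem_filter, Finset.mem_Ioc]
        refine ⟨⟨by omega, by omega⟩, ?_⟩
        intro x hx1 hx2
        have m1 : X + 1 ≤ m := by omega
        have m1' : (X : ℝ) + 1 ≤ m := by exact_mod_cast m1
        have m2 : m + 2 ≤ p := by omega
        have m2' : (m : ℝ) + 2 ≤ p := by exact_mod_cast m2
        have m3 : p ≤ m + ℓ := by omega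
        have m3' : (p : ℝ) ≤ m + ℓ := by exact_mod_cast m3
        have m4 : (p : ℝ) ≤ X + Y := by exact_mod_cast p2
        exact regular_of θ lam hlam X Y p L hL hreq hY hX1 p4 x (by linarith) (by linarith)
          (by linarith) (by linarith)
      refine le_trans ?_ (Finset.card_le_card hsub)
      rw [Nat.card_Icc]
      omega)
    (by
      intro m hm
      by_cases hne : (Finset.bipartiteBelow (fun p m : ℕ => p ≤ m + ℓ ∧ m + 2 ≤ p) G m).Nonempty
      · obtain ⟨p, hp⟩ := hne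
        rw [Finset.mem_bipartiteBelow] at hp
        obtain ⟨hp, q1, q2⟩ := hp
        simp only [G, Finset.mem_filter, Finset.mem_Ioc] at hp
        obtain ⟨⟨p1, p2⟩, p3, p4⟩ := hp
        have q1' : (p : ℝ) ≤ m + ℓ := by exact_mod_cast q1
        have q2' : (m : ℝ) < p := by exact_mod_cast (by omega : m < p)
        have hℓY : (ℓ : ℝ) ≤ Y := by
          have := Real.sqrt_nonneg (4 * (X : ℝ))
          nlinarith
        obtain ⟨-, s1⟩ := p4 m ℓ q2' q1' hℓY
        rw [← hL] at s1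
        rw [hK]
        apply Nat.le_floor
        have s2 : ((Finset.bipartiteBelow (fun p m : ℕ => p ≤ m + ℓ ∧ m + 2 ≤ p) G m).card : ℝ) ≤
            count primes m ℓ := by
          apply Nat.cast_le.2
          unfold count
          rw [← Set.ncard_coe_finset]
          apply Set.ncard_le_ncard _ (finite_count _ _)
          intro q hq
          rw [mem_coe, Finset.mem_bipartiteBelow] at hq
          obtain ⟨hq, u1, u2⟩ := hq
          simp only [G, Finset.mem_filter, Finset.mem_Ioc] at hq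
          refine ⟨hq.2.1, ?_, ?_⟩
          · exact_mod_cast (by omega : m < q)
          · exact_mod_cast u1
        refine s2.trans (s1.trans ?_)
        have s3 : (ℓ : ℝ) / L ≤ L / 2 := by
          rw [div_le_iff₀ hL0]; nlinarith
        nlinarith
      · rw [Finset.not_nonempty_iff_eq_empty] at hne
        rw [hne]
        simp)
  have h1 : (G.card : ℝ) * ((ℓ : ℝ) - 1) ≤ T.card * K := by
    have h2 : ((ℓ - 1 : ℕ) : ℝ) = (ℓ : ℝ) - 1 := by
      rw [Nat.cast_sub (by omega)]; simp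
    rw [← h2]
    exact_mod_cast hdc
  have hK1 : (K : ℝ) ≤ 2 * lam * L := by rw [hK]; exact Nat.floor_le (by positivity)
  have h3 : c₁ / 4 * (Y / L) * (L ^ 2 / 4) ≤ T.card * (2 * lam * L) := by
    refine le_trans (mul_le_mul hG hℓ3 (by positivity) (Nat.cast_nonneg _)) (h1.trans ?_)
    exact mul_le_mul_of_nonneg_left hK1 (Nat.cast_nonneg _)
  have h4 : c₁ / 4 * (Y / L) * (L ^ 2 / 4) = (c₁ / (32 * lam) * Y) * (2 * lam * L) := by
    field_simp
    ring
  rw [h4] at h3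
  have h5 := le_of_mul_le_mul_right h3 (by positivity)
  refine le_trans ?_ h5
  apply mul_le_mul_of_nonneg_right _ (Nat.cast_nonneg _)
  apply div_le_div_of_nonneg_left hc₁.le (by positivity)
  linarith

/-- the good integers are dense in short intervals -/
theorem good_dense : ∃ θ lam c : ℝ, 0 < θ ∧ θ < 1 ∧ 1 ≤ lam ∧ 0 < c ∧ ∃ X₀ : ℕ,
    Dense (goodInts (1 / (2 * lam)) (4 * lam)) c θ X₀ := by
  obtain ⟨θ₁, hθ₁0, hθ₁1, c₁, hc₁, hS⟩ := Pool.Agent.Results.MP_31d0eb_nt.BalancedPrimes.result.2.2.1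
  -- enlarge the exponent
  obtain ⟨θ, hθ⟩ : ∃ θ : ℝ, θ = max θ₁ (3 / 4) := ⟨_, rfl⟩
  have hθ0 : 0 < θ := by rw [hθ]; exact lt_of_lt_of_le hθ₁0 (le_max_left _ _)
  have hθ1 : θ < 1 := by rw [hθ]; exact max_lt hθ₁1 (by norm_num)
  have hθ34 : 3 / 4 ≤ θ := by rw [hθ]; exact le_max_right _ _
  obtain ⟨C, hC, hbad⟩ := Pool.Agent.Results.MP_31d0eb_nt.BalancedPrimes.result.1 θ hθ0
  obtain ⟨lam, hlamdef⟩ : ∃ lam : ℝ, lam = (2 * C / c₁) ^ 2 + 1 := ⟨_, rfl⟩
  have hlam : 1 ≤ lam := by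
    have : 0 ≤ (2 * C / c₁) ^ 2 := by positivity
    linarith
  have hClam : C / √lam ≤ c₁ / 2 := by
    have hs : 2 * C / c₁ ≤ √lam := by
      apply Real.le_sqrt_of_sq_le
      rw [hlamdef]
      linarith
    have hs0 : 0 < √lam := Real.sqrt_pos.2 (by linarith)
    rw [div_le_iff₀ hs0]
    rw [div_le_iff₀ hc₁] at hs
    linarith
  refine ⟨θ, lam, c₁ / (64 * lam), hθ0, hθ1, hlam, by positivity, ?_⟩
  have hlog : Tendsto (fun X : ℕ => Real.log (X : ℝ)) atTop atTop :=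
    Real.tendsto_log_atTop.comp tendsto_natCast_atTop_atTop
  -- numerical facts
  have e1 : ∀ A : ℝ, ∀ᶠ x : ℝ in atTop, A * Real.log x ^ 3 ≤ x ^ (1 / 4 : ℝ) := by
    intro A
    have h := (isLittleO_log_rpow_rpow_atTop 3 (show (0:ℝ) < 1 / 4 by norm_num)).bound
      (c := 1 / (|A| + 1)) (by positivity)
    filter_upwards [h, eventually_ge_atTop (1:ℝ)] with x hx hx1
    have hl0 : 0 ≤ Real.log x := Real.log_nonneg hx1
    have hx0 : 0 ≤ x := by linarith
    rw [Real.norm_of_nonneg (Real.rpow_nonneg hl0 _), Real.norm_of_nonneg (Real.rpow_nonneg hx0 _)] at hx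
    have h3 : Real.log x ^ (3:ℝ) = Real.log x ^ 3 := by
      rw [← Real.rpow_natCast]; norm_num
    rw [h3] at hx
    have h4 : A * Real.log x ^ 3 ≤ (|A| + 1) * Real.log x ^ 3 := by
      apply mul_le_mul_of_nonneg_right _ (by positivity)
      linarith [le_abs_self A]
    refine h4.trans ?_
    have h5 := mul_le_mul_of_nonneg_left hx (show 0 ≤ |A| + 1 by positivity)
    refine h5.trans (le_of_eq ?_)
    have : |A| + 1 ≠ 0 := by positivity
    field_simp
  have e2 : ∀ᶠ X : ℕ in atTop, NReq θ (Real.log X) X ∧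
      4 * (Real.log X ^ 2 + 2) ≤ c₁ * (X : ℝ) ^ θ / Real.log X := by
    have hx := (tendsto_natCast_atTop_atTop (R := ℝ)).eventually (e1 (48 + 48 / c₁))
    have hx4 : ∀ᶠ X : ℕ in atTop, (48 : ℝ) ≤ (X : ℝ) ^ (1 / 4 : ℝ) :=
      ((tendsto_rpow_atTop (by norm_num : (0:ℝ) < 1/4)).comp
        tendsto_natCast_atTop_atTop).eventually_ge_atTop 48
    filter_upwards [hx, hlog.eventually_ge_atTop 10, hx4, eventually_ge_atTop 1] with X h1 h2 h3 h4
    have hX1 : (1:ℝ) ≤ X := by exact_mod_cast h4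
    have hX0 : (0:ℝ) < X := by linarith
    set L := Real.log (X : ℝ) with hL
    set z := (X : ℝ) ^ (1 / 4 : ℝ) with hz
    have hz0 : 0 < z := Real.rpow_pos_of_pos hX0 _
    have hz2 : √(X : ℝ) = z ^ 2 := by
      rw [hz, ← Real.rpow_natCast, ← Real.rpow_mul hX0.le, Real.sqrt_eq_rpow]
      norm_num
    have hz3 : z ^ 3 ≤ (X : ℝ) ^ θ := by
      rw [hz, ← Real.rpow_natCast, ← Real.rpow_mul hX0.le]
      apply Real.rpow_le_rpow_of_exponent_le hX1
      norm_num
      linarith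
    have hL3 : 48 * L ^ 3 ≤ z ∧ 48 / c₁ * L ^ 3 ≤ z := by
      have : 0 ≤ 48 / c₁ * L ^ 3 := by positivity
      have h6 : 0 ≤ 48 * L ^ 3 := by positivity
      constructor <;> nlinarith
    have hL23 : L ^ 2 ≤ L ^ 3 := by
      have : 0 ≤ L ^ 2 := by positivity
      nlinarith
    have hz1 : 1 ≤ z := by linarith
    have hzz : z ≤ z ^ 2 := by nlinarith
    refine ⟨⟨h2, ?_, ?_⟩, ?_⟩
    · have h5 : √(4 * (X : ℝ)) = 2 * √(X : ℝ) := by
        rw [Real.sqrt_mul (by norm_num), show (4:ℝ) = 2 ^ 2 by norm_num, Real.sqrt_sq (by norm_num)]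
      rw [h5, hz2]
      refine le_trans ?_ hz3
      nlinarith [hL3.1]
    · rw [hz2]
      nlinarith [hL3.1]
    · rw [le_div_iff₀ (by linarith)]
      have h6 : 48 * L ^ 3 ≤ c₁ * z := by
        have := hL3.2
        rw [div_mul_eq_mul_div, div_le_iff₀ hc₁] at this
        linarith
      have h7 : c₁ * z ≤ c₁ * (X : ℝ) ^ θ := by
        apply mul_le_mul_of_nonneg_left _ hc₁.le
        refine le_trans ?_ hz3
        nlinarith
      refine le_trans ?_ (h6.trans h7)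
      nlinarith
  obtain ⟨X₀, hX₀⟩ := eventually_atTop.1 ((hbad.and hS).and (e2.and (eventually_ge_atTop 1)))
  refine ⟨X₀, fun X Y hX hY hYX => ?_⟩
  obtain ⟨⟨g1, g2⟩, ⟨g3, g4⟩, g5⟩ := hX₀ X hX
  have hX1 : (1:ℝ) ≤ X := by exact_mod_cast g5
  have hY1 : (X : ℝ) ^ θ₁ ≤ Y := by
    refine le_trans ?_ hY
    apply Real.rpow_le_rpow_of_exponent_le hX1
    rw [hθ]; exact le_max_left _ _
  exact count_ints c₁ C θ lam hc₁ hlam hClam X Y (Real.log X) rfl g3 g4 g5 hY hYX
    (g1 Y hY hYX primes subset_rfl lam hlam) (g2 Y hY1 hYX)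

end Pool.Agent.H27.LD
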