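import Pool.Agent.H27.LD.Chern

/-! Exponentially small probability of few hits. -/

set_option autoImplicit false

open Filter Topology MeasureTheory Finset

namespace Pool.Agent.H27.LD

/-- numerical requirements on the scale `D` -/
def Req (u g R : ℝ) (X₀ : ℕ) (D : ℝ) : Prop :=
  1 ≤ D ∧ R * D * Real.exp (-(g * D)) ≤ 1 / 2 ∧ 12 ≤ Real.exp (g * D) ∧
    8 * (R * D) ≤ Real.exp (u * (R * D)) ∧ (X₀ : ℝ) ≤ Real.exp (u * D) ∧ Real.exp (-(g * D)) ≤ u

lemma req_ev (u g R : ℝ) (X₀ : ℕ) (hu : 0 < u) (hg : 0 < g) (hR : 1 < R) :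
    ∀ᶠ D : ℝ in atTop, Req u g R X₀ D := by
  have hR0 : 0 < R := by linarith
  have t1 : Tendsto (fun D : ℝ => g * D) atTop atTop := tendsto_id.const_mul_atTop hg
  have t2 : Tendsto (fun D : ℝ => Real.exp (g * D)) atTop atTop := Real.tendsto_exp_atTop.comp t1
  have t3 : Tendsto (fun D : ℝ => Real.exp (u * D)) atTop atTop :=
    Real.tendsto_exp_atTop.comp (tendsto_id.const_mul_atTop hu)
  have t4 : Tendsto (fun D : ℝ => R * D) atTop atTop := tendsto_id.const_mul_atTop hR0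
  have t5 : Tendsto (fun x : ℝ => x ^ 1 * Real.exp (-x)) atTop (𝓝 0) :=
    Real.tendsto_pow_mul_exp_neg_atTop_nhds_zero 1
  have e1 : ∀ᶠ D : ℝ in atTop, R * D * Real.exp (-(g * D)) ≤ 1 / 2 := by
    have h := (t5.comp t1).eventually (gt_mem_nhds (show (0:ℝ) < g / (2 * R) by positivity))
    filter_upwards [h] with D hD
    simp only [Function.comp_apply, pow_one] at hD
    have h2 : g * (D * Real.exp (-(g * D))) < g * (1 / (2 * R)) := by
      calc g * (D * Real.exp (-(g * D))) = g * D * Real.exp (-(g * D)) := by ring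
        _ < g / (2 * R) := hD
        _ = g * (1 / (2 * R)) := by ring
    have h3 := lt_of_mul_lt_mul_left h2 hg.le
    calc R * D * Real.exp (-(g * D)) = R * (D * Real.exp (-(g * D))) := by ring
      _ ≤ R * (1 / (2 * R)) := mul_le_mul_of_nonneg_left h3.le hR0.le
      _ = 1 / 2 := by field_simp
  have e2 : ∀ᶠ x : ℝ in atTop, 8 * x ≤ Real.exp (u * x) := by
    have h := (t5.comp (tendsto_id.const_mul_atTop hu)).eventually
      (gt_mem_nhds (show (0:ℝ) < u / 8 by positivity))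
    filter_upwards [h] with x hx
    simp only [Function.comp_apply, pow_one, id_eq] at hx
    have h2 : u * x * Real.exp (-(u * x)) < u / 8 := hx
    rw [Real.exp_neg, ← div_eq_mul_inv, div_lt_iff₀ (Real.exp_pos _)] at h2
    have h3 : u * (8 * x) < u * Real.exp (u * x) := by linarith
    exact (lt_of_mul_lt_mul_left h3 hu.le).le
  have e3 : ∀ᶠ D : ℝ in atTop, Real.exp (-(g * D)) ≤ u := by
    have h := t2.eventually_ge_atTop (1 / u)
    filter_upwards [h] with D hD
    rw [Real.exp_neg, inv_le_comm₀ (Real.exp_pos _) hu]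
    simpa using hD
  filter_upwards [eventually_ge_atTop (1:ℝ), e1, t2.eventually_ge_atTop 12, t4.eventually e2,
    t3.eventually_ge_atTop (X₀ : ℝ), e3] with D h1 h2 h3 h4 h5 h6
  exact ⟨h1, h2, h3, h4, h5, h6⟩

/-- dyadic cell length at scale `D` -/
noncomputable def kk (g D : ℝ) : ℕ := ⌈g / Real.log 2 * D⌉₊

lemma kk_le (g D : ℝ) (hg : 0 < g) (hD : 0 ≤ D) : ((1:ℝ) / 2) ^ kk g D ≤ Real.exp (-(g * D)) := by
  have hl : 0 < Real.log 2 := Real.log_pos (by norm_num)
  have h1 : g / Real.log 2 * D ≤ kk g D := Nat.le_ceil _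
  have h2 : ((1:ℝ) / 2) ^ kk g D = Real.exp (-(Real.log 2 * kk g D)) := by
    rw [one_div, inv_pow, Real.exp_neg, mul_comm, Real.exp_nat_mul, Real.exp_log (by norm_num)]
  rw [h2]
  apply Real.exp_le_exp.2
  apply neg_le_neg
  calc g * D = Real.log 2 * (g / Real.log 2 * D) := by field_simp
    _ ≤ Real.log 2 * kk g D := mul_le_mul_of_nonneg_left h1 hl.le

lemma kk_ge (g D : ℝ) (hg : 0 < g) (hD : 0 ≤ D) :
    Real.exp (-(g * D)) / 2 ≤ ((1:ℝ) / 2) ^ kk g D := by
  have hl : 0 < Real.log 2 := Real.log_pos (by norm_num)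
  have h1 : (kk g D : ℝ) < g / Real.log 2 * D + 1 := Nat.ceil_lt_add_one (by positivity)
  have h2 : ((1:ℝ) / 2) ^ kk g D = Real.exp (-(Real.log 2 * kk g D)) := by
    rw [one_div, inv_pow, Real.exp_neg, mul_comm, Real.exp_nat_mul, Real.exp_log (by norm_num)]
  rw [h2]
  have h3 : Real.exp (-(g * D)) / 2 = Real.exp (-(g * D) - Real.log 2) := by
    rw [Real.exp_sub, Real.exp_log (by norm_num)]
  rw [h3]
  apply Real.exp_le_exp.2
  have h4 : Real.log 2 * kk g D ≤ Real.log 2 * (g / Real.log 2 * D + 1) :=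
    mul_le_mul_of_nonneg_left h1.le hl.le
  have h5 : Real.log 2 * (g / Real.log 2 * D + 1) = g * D + Real.log 2 := by field_simp
  linarith

lemma kk_mono (g D D' : ℝ) (hg : 0 < g) (h : D ≤ D') : kk g D ≤ kk g D' := by
  unfold kk
  apply Nat.ceil_mono
  have hl : 0 < Real.log 2 := Real.log_pos (by norm_num)
  exact mul_le_mul_of_nonneg_left h (by positivity)

open Classical in
/-- the cells at scale `D` -/
lemma cells_at (S : Set ℕ) (c θ : ℝ) (hc0 : 0 < c) (X₀ : ℕ) (hθ0 : 0 < θ) (hθ1 : θ < 1)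
    (hS : ∀ X Y : ℕ, X₀ ≤ X → (X : ℝ) ^ θ ≤ Y → Y ≤ X →
      c * Y ≤ (((Finset.Ioc X (X + Y)).filter (fun m => m ∈ S)).card : ℝ))
    (u g R : ℝ) (hu : 0 < u) (hg : g = (1 - θ) * u / 2) (hR : R = 8 / (1 - θ))
    (D D' : ℝ) (hD' : D' = R ^ 2 * D) (hreq : Req u g R X₀ D) (b a : ℝ) (hb1 : D ≤ b)
    (hb2 : b ≤ R * D) (ha1 : u ≤ a) (δ η : ℝ) (M : ℕ) (hη0 : 0 < η) (hM : 0 < M)
    (hδη : δ = M * η) (hδup : δ ≤ Real.exp (-(g * D))) (hδlo : Real.exp (-(g * D)) / 2 ≤ δ)
    (hηup : η ≤ Real.exp (-(g * D'))) (ha2 : a + δ ≤ 3 * u) :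
    c / 6 * M ≤
      (((Finset.range M).filter (fun i : ℕ =>
        Set.Icc (a + i * η) (a + (i + 1) * η) ⊆ Ev S b)).card : ℝ) := by
  obtain ⟨q1, q2, q3, q4, q5, q6⟩ := hreq
  have hq : 0 < 1 - θ := by linarith
  have hg0 : 0 < g := by rw [hg]; positivity
  have hR8 : 8 ≤ R := by
    rw [hR, le_div_iff₀ hq]; nlinarith
  have hR0 : 0 < R := by linarith
  have hD0 : 0 < D := by linarith
  have hb0 : 0 < b := by linarith
  have hδ0 : 0 < δ := by
    have := Real.exp_pos (-(g * D))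
    linarith
  obtain ⟨E, hE⟩ : ∃ E, E = Real.exp (a * b) := ⟨_, rfl⟩
  have hab : u * D ≤ a * b := mul_le_mul ha1 hb1 hD0.le (hu.le.trans ha1)
  have hEu : Real.exp (u * D) ≤ E := by rw [hE]; exact Real.exp_le_exp.2 hab
  have hE0 : 0 < E := by rw [hE]; exact Real.exp_pos _
  obtain ⟨G, hG⟩ : ∃ G, G = Real.exp (g * D) := ⟨_, rfl⟩
  have hG0 : 0 < G := by rw [hG]; exact Real.exp_pos _
  have hGG : G * G = Real.exp (2 * (g * D)) := by
    rw [hG, ← Real.exp_add]; ring_nf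
  have hneg : Real.exp (-(g * D)) = G⁻¹ := by rw [hG]; exact Real.exp_neg _
  rw [← hG] at q3
  rw [hneg] at hδup hδlo q2 q6
  have hEg : G * G ≤ E := by
    rw [hGG]
    refine le_trans (Real.exp_le_exp.2 ?_) hEu
    have : g ≤ u / 2 := by rw [hg]; nlinarith
    nlinarith
  have hδb : δ ≤ δ * b := by
    have : 1 ≤ b := by linarith
    nlinarith
  have hδb0 : 0 < δ * b := mul_pos hδ0 hb0
  have hEθ : 0 < E ^ θ := Real.rpow_pos_of_pos hE0 _
  have f2 : G * G ≤ E ^ (1 - θ) := by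
    have : E ^ (1 - θ) = Real.exp (a * b * (1 - θ)) := by
      rw [hE, ← Real.exp_mul]
    rw [this, hGG]
    apply Real.exp_le_exp.2
    have : u * D * (1 - θ) ≤ a * b * (1 - θ) := mul_le_mul_of_nonneg_right hab hq.le
    rw [hg]
    linarith
  have hGlo : G * G * (G⁻¹ / 2) = G / 2 := by field_simp
  refine cells S c θ hc0 X₀ hS hθ0 a b δ η M hb0 hδη hη0 hM ?_ ?_ ?_ ?_ ?_
  · calc δ * b ≤ G⁻¹ * (R * D) := mul_le_mul hδup hb2 hb0.le (by positivity)
      _ = R * D * G⁻¹ := by ring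
      _ ≤ 1 / 2 := q2
  · rw [← hE]
    have hE1 : 1 ≤ E := by nlinarith
    have f1 : (E + 1) ^ θ ≤ 2 * E ^ θ := by
      calc (E + 1) ^ θ ≤ (2 * E) ^ θ :=
            Real.rpow_le_rpow (by linarith) (by linarith) hθ0.le
        _ = 2 ^ θ * E ^ θ := Real.mul_rpow (by norm_num) hE0.le
        _ ≤ 2 * E ^ θ := by
            apply mul_le_mul_of_nonneg_right _ hEθ.le
            calc (2:ℝ) ^ θ ≤ 2 ^ (1:ℝ) := Real.rpow_le_rpow_of_exponent_le (by norm_num) hθ1.le
              _ = 2 := Real.rpow_one _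
    have f3 : E = E ^ θ * E ^ (1 - θ) := by
      rw [← Real.rpow_add hE0]
      simp
    have f4 : E ^ θ * (G * G) * (G⁻¹ / 2) ≤ E * (δ * b) := by
      apply mul_le_mul _ (hδlo.trans hδb) (by positivity) hE0.le
      calc E ^ θ * (G * G) ≤ E ^ θ * E ^ (1 - θ) := mul_le_mul_of_nonneg_left f2 hEθ.le
        _ = E := f3.symm
    have f5 : E ^ θ * (G * G) * (G⁻¹ / 2) = E ^ θ * (G / 2) := by
      rw [mul_assoc, hGlo]
    rw [f5] at f4
    refine le_trans ?_ f4
    calc 2 * (E + 1) ^ θ ≤ 2 * (2 * E ^ θ) := by linarith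
      _ = E ^ θ * 4 := by ring
      _ ≤ E ^ θ * (G / 2) := mul_le_mul_of_nonneg_left (by linarith) hEθ.le
  · rw [← hE]
    have f4 : (G * G) * (G⁻¹ / 2) ≤ E * (δ * b) :=
      mul_le_mul hEg (hδlo.trans hδb) (by positivity) hE0.le
    rw [hGlo] at f4
    linarith
  · have f1 : (a + δ) * b ≤ 3 * (u * (R * D)) := by
      calc (a + δ) * b ≤ (3 * u) * (R * D) := mul_le_mul ha2 hb2 hb0.le (by positivity)
        _ = 3 * (u * (R * D)) := by ring
    have f2 : Real.exp ((a + δ) * b) * η ≤ Real.exp (-(u * (R * D))) := by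
      calc Real.exp ((a + δ) * b) * η ≤ Real.exp (3 * (u * (R * D))) * Real.exp (-(g * D')) :=
            mul_le_mul (Real.exp_le_exp.2 f1) hηup hη0.le (Real.exp_pos _).le
        _ = Real.exp (-(u * (R * D))) := by
            rw [← Real.exp_add]
            congr 1
            have h7 : g * D' = 4 * (u * (R * D)) := by
              have h8 : R * (1 - θ) = 8 := by rw [hR]; field_simp
              calc g * D' = (1 - θ) * u / 2 * (R ^ 2 * D) := by rw [hD', hg]
                _ = (R * (1 - θ)) * (u * (R * D)) / 2 := by ring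
                _ = 4 * (u * (R * D)) := by rw [h8]; ring
            rw [h7]; ring
    calc 8 * (b * (Real.exp ((a + δ) * b) * η)) ≤ 8 * ((R * D) * Real.exp (-(u * (R * D)))) := by
          apply mul_le_mul_of_nonneg_left _ (by norm_num)
          exact mul_le_mul hb2 f2 (by positivity) (by positivity)
      _ = 8 * (R * D) / Real.exp (u * (R * D)) := by
          rw [Real.exp_neg]; ring
      _ ≤ 1 := (div_le_one (Real.exp_pos _)).2 q4
  · rw [← hE]
    exact q5.trans hEu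

end Pool.Agent.H27.LD
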