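import Pool.Agent.H27.LD.Tail

/-! The probability that a finite family of exponents has few hits. -/

set_option autoImplicit false

open Filter Topology MeasureTheory Finset

namespace Pool.Agent.H27.LD

open Classical in
/-- hypotheses on the set of integers: positive density in all intervals `(X, X + Y]`,
`X ^ θ ≤ Y ≤ X` -/
def Dense (S : Set ℕ) (c θ : ℝ) (X₀ : ℕ) : Prop :=
  ∀ X Y : ℕ, X₀ ≤ X → (X : ℝ) ^ θ ≤ Y → Y ≤ X →
      c * Y ≤ (((Finset.Ioc X (X + Y)).filter (fun m => m ∈ S)).card : ℝ)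

/-- index of the block `[R ^ k, R ^ (k + 1))` of a real number `≥ 1` -/
noncomputable def idx (R x : ℝ) : ℕ := ⌊Real.logb R x⌋₊

lemma idx_spec (R x : ℝ) (hR : 1 < R) (hx : 1 ≤ x) :
    R ^ idx R x ≤ x ∧ x < R ^ (idx R x + 1) := by
  have hx0 : 0 < x := by linarith
  have h0 : 0 ≤ Real.logb R x := Real.logb_nonneg hR hx
  constructor
  · have h1 := Nat.floor_le h0
    rw [Real.le_logb_iff_rpow_le hR hx0] at h1
    rw [← Real.rpow_natCast]
    exact h1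
  · have h1 := Nat.lt_floor_add_one (Real.logb R x)
    rw [Real.logb_lt_iff_lt_rpow hR hx0] at h1
    rw [← Real.rpow_natCast]
    push_cast
    exact h1

lemma idx_ge (R x : ℝ) (hR : 1 < R) (k : ℕ) (hx : R ^ k ≤ x) : k ≤ idx R x := by
  have hx1 : 1 ≤ x := (one_le_pow₀ hR.le).trans hx
  have h2 := (idx_spec R x hR hx1).2
  have h3 := hx.trans_lt h2
  have h4 := (pow_lt_pow_iff_right₀ hR).1 h3
  omega

/-- the weights have mass at most `1` on each block of exponents -/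
def Mass (R : ℝ) (b w : ℕ → ℝ) : Prop :=
  ∀ k : ℕ, ∀ F : Finset ℕ, (∀ n ∈ F, R ^ k ≤ b n ∧ b n < R ^ (k + 1)) → ∑ n ∈ F, w n ≤ 1

open Classical in
/-- one parity class -/
lemma tail_parity (S : Set ℕ) (c θ : ℝ) (hc0 : 0 < c) (X₀ : ℕ) (hθ0 : 0 < θ) (hθ1 : θ < 1)
    (hS : Dense S c θ X₀) (u g R : ℝ) (hu : 0 < u) (hg : g = (1 - θ) * u / 2)
    (hR : R = 8 / (1 - θ)) (k₀ : ℕ) (hk₀ : ∀ D : ℝ, R ^ k₀ ≤ D → Req u g R X₀ D)
    (b w : ℕ → ℝ) (hw : ∀ n, 0 ≤ w n) (hm : Mass R b w) (τ : ℕ) (Fb : ℕ → Finset ℕ)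
    (hFb : ∀ j, ∀ n ∈ Fb j, R ^ (k₀ + 2 * j + τ) ≤ b n ∧ b n < R ^ (k₀ + 2 * j + τ + 1)) (r : ℕ) :
    ∫⁻ β in Set.Ico u (2 * u), ENNReal.ofReal
        (Real.exp (-∑ i ∈ Finset.Ico 0 (0 + r), wh S b w (Fb i) β)) ≤
      ENNReal.ofReal (2 * u *
        Real.exp (-(c / 12 * ∑ i ∈ Finset.Ico 0 (0 + r), ∑ n ∈ Fb i, w n))) := by
  have hq : 0 < 1 - θ := by linarith
  have hg0 : 0 < g := by rw [hg]; positivity
  have hR8 : 8 ≤ R := by
    rw [hR, le_div_iff₀ hq]; nlinarith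
  have hR1 : 1 < R := by linarith
  let D : ℕ → ℝ := fun j => R ^ (k₀ + 2 * j + τ)
  have hDpos : ∀ j, 0 < D j := fun j => by positivity
  have hDge : ∀ j, R ^ k₀ ≤ D j := fun j => pow_le_pow_right₀ hR1.le (by omega)
  have hDs : ∀ j, D (j + 1) = R ^ 2 * D j := by
    intro j
    simp only [D]
    rw [← pow_add]
    congr 1
    omega
  have hDm : ∀ j, D j ≤ D (j + 1) := fun j => pow_le_pow_right₀ hR1.le (by omega)
  let δ : ℕ → ℝ := fun j => (1 / 2 : ℝ) ^ kk g (D j)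
  let M : ℕ → ℕ := fun j => 2 ^ (kk g (D (j + 1)) - kk g (D j))
  have hδ0 : ∀ j, 0 < δ j := fun j => by positivity
  have hδ : ∀ j, δ j = M j * δ (j + 1) := by
    intro j
    have hkk := kk_mono g (D j) (D (j + 1)) hg0 (hDm j)
    simp only [δ, M]
    push_cast
    have e1 : kk g (D (j + 1)) = (kk g (D (j + 1)) - kk g (D j)) + kk g (D j) := by omega
    generalize kk g (D (j + 1)) = k2 at *
    generalize kk g (D j) = k1 at *
    obtain ⟨d, hd⟩ : ∃ d, d = k2 - k1 := ⟨_, rfl⟩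
    rw [← hd] at e1 ⊢
    rw [e1, pow_add, ← mul_assoc, ← mul_pow]
    norm_num
  have hmom := moments S b w Fb (fun j n _ => hw n)
    (fun j => hm (k₀ + 2 * j + τ) (Fb j) (hFb j)) (c / 6) u (3 * u) δ M hδ0 hδ
    (by
      intro j n hn a ha1 ha2
      obtain ⟨hb1, hb2⟩ := hFb j n hn
      refine cells_at S c θ hc0 X₀ hθ0 hθ1 hS u g R hu hg hR (D j) (D (j + 1)) (hDs j)
        (hk₀ _ (hDge j)) (b n) a hb1 ?_ ha1 (δ j) (δ (j + 1)) (M j) (hδ0 _) (by positivity)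
        (hδ j) (kk_le g (D j) hg0 (hDpos j).le) (kk_ge g (D j) hg0 (hDpos j).le)
        (kk_le g (D (j + 1)) hg0 (hDpos _).le) ha2
      refine hb2.le.trans (le_of_eq ?_)
      simp only [D]
      rw [pow_succ]
      ring)
  -- the partition of `[u, 2 u)`
  have hreq0 := hk₀ _ (hDge 0)
  obtain ⟨-, -, -, -, -, q6⟩ := hreq0
  have hδu : δ 0 ≤ u := (kk_le g (D 0) hg0 (hDpos 0).le).trans q6
  obtain ⟨N, hN⟩ : ∃ N : ℕ, N = ⌈u / δ 0⌉₊ := ⟨_, rfl⟩
  have hN1 : u ≤ N * δ 0 := by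
    rw [← div_le_iff₀ (hδ0 0), hN]; exact Nat.le_ceil _
  have hN2 : N * δ 0 ≤ 2 * u := by
    have h1 : (N : ℝ) < u / δ 0 + 1 := by
      rw [hN]; exact Nat.ceil_lt_add_one (div_nonneg hu.le (hδ0 0).le)
    have h2 : (N : ℝ) * δ 0 ≤ (u / δ 0 + 1) * δ 0 := mul_le_mul_of_nonneg_right h1.le (hδ0 0).le
    have h3 : (u / δ 0 + 1) * δ 0 = u + δ 0 := by
      have := (hδ0 0).ne'
      field_simp
    linarith
  have hsub : Set.Ico u (2 * u) ⊆ Set.Ico u (u + N * δ 0) :=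
    Set.Ico_subset_Ico_right (by linarith)
  refine (lintegral_mono_set hsub).trans ((lint_cells _ u (δ 0) (hδ0 0) N).trans ?_)
  have hcell : ∀ i ∈ Finset.range N, ∫⁻ β in Set.Ico (u + i * δ 0) (u + (i + 1) * δ 0),
      ENNReal.ofReal (Real.exp (-∑ i ∈ Finset.Ico 0 (0 + r), wh S b w (Fb i) β)) ≤
      ENNReal.ofReal (δ 0 *
        Real.exp (-(c / 6 / 2 * ∑ i ∈ Finset.Ico 0 (0 + r), ∑ n ∈ Fb i, w n))) := by
    intro i hi
    have hi' : (i : ℝ) + 1 ≤ N := by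
      have := Finset.mem_range.1 hi
      exact_mod_cast this
    have e1 : u + (i + 1) * δ 0 = u + i * δ 0 + δ 0 := by ring
    rw [e1]
    apply hmom r 0 (u + i * δ 0)
    · have : 0 ≤ (i : ℝ) * δ 0 := mul_nonneg (Nat.cast_nonneg _) (hδ0 0).le
      linarith
    · have : ((i : ℝ) + 1) * δ 0 ≤ N * δ 0 := mul_le_mul_of_nonneg_right hi' (hδ0 0).le
      linarith
  refine (Finset.sum_le_sum hcell).trans ?_
  rw [Finset.sum_const, Finset.card_range, nsmul_eq_mul, ← ENNReal.ofReal_natCast,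
    ← ENNReal.ofReal_mul (Nat.cast_nonneg _)]
  apply ENNReal.ofReal_le_ofReal
  rw [← mul_assoc]
  have e2 : c / 6 / 2 = c / 12 := by ring
  rw [e2]
  exact mul_le_mul_of_nonneg_right hN2 (Real.exp_pos _).le

open Classical in
/-- few hits are exponentially rare -/
theorem tail (S : Set ℕ) (c θ : ℝ) (hc0 : 0 < c) (X₀ : ℕ) (hθ0 : 0 < θ) (hθ1 : θ < 1)
    (hS : Dense S c θ X₀) (u : ℝ) (hu : 0 < u) : ∃ k₀ : ℕ,
    ∀ b w : ℕ → ℝ, (∀ n, 0 ≤ w n) → Mass (8 / (1 - θ)) b w →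
      ∀ F : Finset ℕ, (∀ n ∈ F, (8 / (1 - θ)) ^ k₀ ≤ b n) →
        volume ({β : ℝ | wh S b w F β ≤ c / 48 * ∑ n ∈ F, w n} ∩ Set.Ico u (2 * u)) ≤
          ENNReal.ofReal (2 * u * Real.exp (-(c / 48 * ∑ n ∈ F, w n))) := by
  obtain ⟨R, hR⟩ : ∃ R : ℝ, R = 8 / (1 - θ) := ⟨_, rfl⟩
  obtain ⟨g, hg⟩ : ∃ g : ℝ, g = (1 - θ) * u / 2 := ⟨_, rfl⟩
  have hq : 0 < 1 - θ := by linarith
  have hg0 : 0 < g := by rw [hg]; positivity
  have hR8 : 8 ≤ R := by
    rw [hR, le_div_iff₀ hq]; nlinarith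
  have hR1 : 1 < R := by linarith
  obtain ⟨D₀, hD₀⟩ := eventually_atTop.1 (req_ev u g R X₀ hu hg0 hR1)
  obtain ⟨k₀, hk₀⟩ := ((tendsto_pow_atTop_atTop_of_one_lt hR1).eventually_ge_atTop D₀).exists
  refine ⟨k₀, fun b w hw hm F hF => ?_⟩
  rw [← hR] at hm hF
  have hreq : ∀ D : ℝ, R ^ k₀ ≤ D → Req u g R X₀ D := fun D hD => hD₀ D (hk₀.trans hD)
  -- the parity classes
  let e : ℕ → ℕ := fun n => idx R (b n) - k₀
  have he : ∀ n ∈ F, R ^ (k₀ + e n) ≤ b n ∧ b n < R ^ (k₀ + e n + 1) := by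
    intro n hn
    have h1 := idx_ge R (b n) hR1 k₀ (hF n hn)
    have h2 := idx_spec R (b n) hR1 ((one_le_pow₀ hR1.le).trans (hF n hn))
    have h3 : k₀ + e n = idx R (b n) := by simp only [e]; omega
    rw [h3]
    exact h2
  obtain ⟨r, hr⟩ : ∃ r : ℕ, ∀ n ∈ F, e n / 2 < r := by
    refine ⟨F.sup (fun n => e n / 2) + 1, fun n hn => ?_⟩
    exact Nat.lt_succ_of_le (Finset.le_sup (f := fun n => e n / 2) hn)
  have hfib : ∀ (f : ℕ → ℝ) (τ : ℕ), ∑ i ∈ Finset.Ico 0 (0 + r),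
      ∑ n ∈ (F.filter (fun n => e n % 2 = τ)).filter (fun n => e n / 2 = i), f n =
      ∑ n ∈ F.filter (fun n => e n % 2 = τ), f n := by
    intro f τ
    apply Finset.sum_fiberwise_of_maps_to
    intro n hn
    rw [Finset.mem_Ico]
    have := hr n (Finset.mem_filter.1 hn).1
    omega
  have hsplit : ∀ f : ℕ → ℝ, ∑ n ∈ F, f n = ∑ n ∈ F.filter (fun n => e n % 2 = 0), f n +
      ∑ n ∈ F.filter (fun n => e n % 2 = 1), f n := by
    intro f
    rw [← Finset.sum_filter_add_sum_filter_not F (fun n => e n % 2 = 0)]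
    congr 2
    apply Finset.filter_congr
    intro n _
    omega
  obtain ⟨W, hW⟩ : ∃ W, W = ∑ n ∈ F, w n := ⟨_, rfl⟩
  obtain ⟨τ, hτ2, hτ⟩ : ∃ τ, τ < 2 ∧ W / 2 ≤ ∑ n ∈ F.filter (fun n => e n % 2 = τ), w n := by
    have := hsplit w
    rcases le_total (W / 2) (∑ n ∈ F.filter (fun n => e n % 2 = 0), w n) with h | h
    · exact ⟨0, by norm_num, h⟩
    · exact ⟨1, by norm_num, by linarith⟩
  let Fb : ℕ → Finset ℕ := fun i => (F.filter (fun n => e n % 2 = τ)).filter (fun n => e n / 2 = i)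
  have hFb : ∀ j, ∀ n ∈ Fb j, R ^ (k₀ + 2 * j + τ) ≤ b n ∧ b n < R ^ (k₀ + 2 * j + τ + 1) := by
    intro j n hn
    simp only [Fb, Finset.mem_filter] at hn
    obtain ⟨⟨h1, h2⟩, h3⟩ := hn
    have h4 : k₀ + 2 * j + τ = k₀ + e n := by omega
    rw [h4]
    exact he n h1
  have hmain := tail_parity S c θ hc0 X₀ hθ0 hθ1 hS u g R hu hg hR k₀ hreq b w hw hm τ Fb hFb r
  have hWsum : W / 2 ≤ ∑ i ∈ Finset.Ico 0 (0 + r), ∑ n ∈ Fb i, w n := by
    rw [hfib w τ]; exact hτ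
  have hwh : ∀ β, ∑ i ∈ Finset.Ico 0 (0 + r), wh S b w (Fb i) β ≤ wh S b w F β := by
    intro β
    unfold wh
    rw [hfib (fun n => w n * hit S (b n) β) τ]
    apply Finset.sum_le_sum_of_subset_of_nonneg (Finset.filter_subset _ _)
    intro n _ _
    exact mul_nonneg (hw n) (hit_nonneg S (b n) β)
  rw [← hW]
  set f : ℝ → ENNReal := fun β => ENNReal.ofReal
        (Real.exp (-∑ i ∈ Finset.Ico 0 (0 + r), wh S b w (Fb i) β)) with hf
  have hfm : Measurable f := by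
    rw [hf]
    apply ENNReal.measurable_ofReal.comp
    apply Real.measurable_exp.comp
    apply Measurable.neg
    exact Finset.measurable_fun_sum _ fun i _ => wh_meas S b w (Fb i)
  have hmk := mul_meas_ge_le_lintegral (μ := volume.restrict (Set.Ico u (2 * u))) hfm
    (ENNReal.ofReal (Real.exp (-(c / 48 * W))))
  have hset : volume ({β : ℝ | wh S b w F β ≤ c / 48 * W} ∩ Set.Ico u (2 * u)) ≤
      (volume.restrict (Set.Ico u (2 * u)))
        {β | ENNReal.ofReal (Real.exp (-(c / 48 * W))) ≤ f β} := by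
    rw [← Measure.restrict_apply' measurableSet_Ico]
    apply measure_mono
    intro β hβ
    simp only [Set.mem_ofPred_eq] at hβ ⊢
    rw [hf]
    apply ENNReal.ofReal_le_ofReal
    apply Real.exp_le_exp.2
    have := hwh β
    linarith
  have h1 : ENNReal.ofReal (Real.exp (-(c / 48 * W))) *
      volume ({β : ℝ | wh S b w F β ≤ c / 48 * W} ∩ Set.Ico u (2 * u)) ≤
      ENNReal.ofReal (2 * u * Real.exp (-(c / 24 * W))) := by
    refine (mul_le_mul_right hset _).trans (hmk.trans (hmain.trans ?_))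
    apply ENNReal.ofReal_le_ofReal
    apply mul_le_mul_of_nonneg_left _ (by positivity)
    apply Real.exp_le_exp.2
    apply neg_le_neg
    have : c / 12 * (W / 2) ≤ c / 12 * ∑ i ∈ Finset.Ico 0 (0 + r), ∑ n ∈ Fb i, w n :=
      mul_le_mul_of_nonneg_left hWsum (by positivity)
    linarith
  have h2 : ENNReal.ofReal (Real.exp (c / 48 * W)) * (ENNReal.ofReal (Real.exp (-(c / 48 * W))) *
      volume ({β : ℝ | wh S b w F β ≤ c / 48 * W} ∩ Set.Ico u (2 * u))) =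
      volume ({β : ℝ | wh S b w F β ≤ c / 48 * W} ∩ Set.Ico u (2 * u)) := by
    rw [← mul_assoc, ← ENNReal.ofReal_mul (Real.exp_pos _).le, ← Real.exp_add]
    simp
  rw [← h2]
  refine (mul_le_mul_right h1 _).trans ?_
  rw [← ENNReal.ofReal_mul (Real.exp_pos _).le]
  apply ENNReal.ofReal_le_ofReal
  apply le_of_eq
  rw [mul_left_comm, ← Real.exp_add]
  congr 2
  ring

end Pool.Agent.H27.LD
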